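import Mathlib

set_option autoImplicit false

open Topology Filter Set

namespace Pool.Agent.W651.SGroup

universe u

section core

variable {I : Type} {H : Type u} [AddGroup H] [TopologicalSpace H] [IsTopologicalAddGroup H]

/-- A sequence of closed neighbourhoods of zero which shrink under sums and differences. -/
theorem exists_seq {U : Set H} (hU : U ∈ 𝓝 (0 : H)) :
    ∃ W : ℕ → Set H, (∀ n, W n ∈ 𝓝 (0 : H)) ∧ (∀ n, IsClosed (W n)) ∧
      (∀ a ∈ W 0, ∀ b ∈ W 0, a + b ∈ U) ∧
      (∀ n, ∀ a ∈ W (n + 1), ∀ b ∈ W (n + 1), a + b ∈ W n ∧ a - b ∈ W n) := by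
  have step : ∀ S : {S : Set H // S ∈ 𝓝 (0 : H)}, ∃ T : {S : Set H // S ∈ 𝓝 (0 : H)},
      IsClosed T.1 ∧ ∀ a ∈ T.1, ∀ b ∈ T.1, a + b ∈ S.1 ∧ a - b ∈ S.1 := by
    rintro ⟨S, hS⟩
    have h1 : Tendsto (fun p : H × H => p.1 + p.2) (𝓝 (0, 0)) (𝓝 (0 : H)) := by
      have : Continuous (fun p : H × H => p.1 + p.2) := continuous_add
      simpa using this.tendsto (0, 0)
    have h2 : Tendsto (fun p : H × H => p.1 - p.2) (𝓝 (0, 0)) (𝓝 (0 : H)) := by
      have : Continuous (fun p : H × H => p.1 - p.2) := continuous_sub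
      simpa using this.tendsto (0, 0)
    have h3 := (h1 hS)
    have h4 := (h2 hS)
    obtain ⟨A, hA, B, hB, hAB⟩ := mem_nhds_prod_iff.1 (inter_mem h3 h4)
    obtain ⟨T, hT, hTc, hTS⟩ := exists_mem_nhds_isClosed_subset (inter_mem hA hB)
    refine ⟨⟨T, hT⟩, hTc, fun a ha b hb => ?_⟩
    exact hAB (mk_mem_prod (hTS ha).1 (hTS hb).2)
  choose F hF1 hF2 using step
  let W : ℕ → {S : Set H // S ∈ 𝓝 (0 : H)} := fun n => Nat.rec (F ⟨U, hU⟩) (fun _ S => F S) n
  refine ⟨fun n => (W n).1, fun n => (W n).2, fun n => ?_, fun a ha b hb => ?_, fun n => ?_⟩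
  · cases n with
    | zero => exact hF1 _
    | succ n => exact hF1 _
  · exact (hF2 ⟨U, hU⟩ a ha b hb).1
  · exact hF2 (W n)

variable (h : (I → ℝ) →+ H) (hseq : SeqContinuous h)
  (W : ℕ → Set H) (hW : ∀ n, W n ∈ 𝓝 (0 : H)) (hWc : ∀ n, IsClosed (W n))
  (hW2 : ∀ n, ∀ a ∈ W (n + 1), ∀ b ∈ W (n + 1), a + b ∈ W n ∧ a - b ∈ W n)

include hW hW2 in
theorem N_zero : (0 : H) ∈ ⋂ n, W n := mem_iInter.2 fun n => mem_of_mem_nhds (hW n)

include hW2 in
theorem N_add {a b : H} (ha : a ∈ ⋂ n, W n) (hb : b ∈ ⋂ n, W n) : a + b ∈ ⋂ n, W n :=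
  mem_iInter.2 fun n => (hW2 n a (mem_iInter.1 ha _) b (mem_iInter.1 hb _)).1

include hWc in
theorem N_closed : IsClosed (⋂ n, W n) := isClosed_iInter hWc

include hseq in
theorem seq_disjoint (y : ℕ → I → ℝ) (hy : ∀ m n, m ≠ n → Disjoint (Function.support (y m))
    (Function.support (y n))) : Tendsto (fun n => h (y n)) atTop (𝓝 (0 : H)) := by
  have h1 : Tendsto y atTop (𝓝 (0 : I → ℝ)) := by
    rw [tendsto_pi_nhds]
    intro i
    by_cases hex : ∃ m, y m i ≠ 0
    · obtain ⟨m, hm⟩ := hex
      apply tendsto_const_nhds.congr'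
      filter_upwards [eventually_gt_atTop m] with n hn
      by_contra hne
      have hne' : y n i ≠ 0 := fun h0 => hne (by rw [h0]; rfl)
      exact (Set.disjoint_left.1 (hy m n (by omega))) hm hne'
    · push Not at hex
      simp only [hex]
      exact tendsto_const_nhds
  have h2 := hseq h1
  rw [map_zero] at h2
  exact h2

include hseq hW in
/-- In a family of functions with disjoint supports all but countably many have value in `N`. -/
theorem countable_bad {J : Type*} (y : J → I → ℝ)
    (hy : ∀ a b, a ≠ b → Disjoint (Function.support (y a)) (Function.support (y b))) :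
    {a | h (y a) ∉ ⋂ n, W n}.Countable := by
  have h1 : {a | h (y a) ∉ ⋂ n, W n} = ⋃ n, {a | h (y a) ∉ W n} := by
    ext a
    simp only [mem_iInter, not_forall, mem_ofPred_eq, mem_iUnion]
  rw [h1]
  apply countable_iUnion
  intro n
  apply Set.Finite.countable
  by_contra hinf
  have hinf' : {a | h (y a) ∉ W n}.Infinite := hinf
  let e := hinf'.natEmbedding
  have h2 := seq_disjoint h hseq (fun k => y (e k).1) (fun m k hmk => hy _ _ (fun heq =>
    hmk (e.injective (Subtype.ext heq))))
  obtain ⟨k, hk⟩ := (h2.eventually_mem (hW n)).exists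
  exact (e k).2 hk

include hseq hW hWc hW2 in
/-- Countable additivity modulo `N`. -/
theorem sigma_add (x : I → ℝ) (B : ℕ → Set I) (hB : ∀ m n, m ≠ n → Disjoint (B m) (B n))
    (hBN : ∀ n, h (indicator (B n) x) ∈ ⋂ n, W n) :
    h (indicator (⋃ n, B n) x) ∈ ⋂ n, W n := by
  classical
  let C : ℕ → Set I := fun k => ⋃ n < k, B n
  have hC : ∀ k, h (indicator (C k) x) ∈ ⋂ n, W n := by
    intro k
    induction k with
    | zero =>
      have : C 0 = ∅ := by simp [C]
      rw [this, indicator_empty]
      have h0 : h (fun _ => 0) = 0 := map_zero h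
      rw [h0]
      exact N_zero W hW hW2
    | succ k ih =>
      have h1 : indicator (C (k + 1)) x = indicator (C k) x + indicator (B k) x := by
        have h2 : C (k + 1) = C k ∪ B k := by
          ext i
          simp only [C, mem_iUnion, mem_union]
          constructor
          · rintro ⟨n, hn, hi⟩
            rcases Nat.lt_succ_iff_lt_or_eq.1 hn with hlt | heq
            · exact Or.inl ⟨n, hlt, hi⟩
            · exact Or.inr (heq ▸ hi)
          · rintro (⟨n, hn, hi⟩ | hi)
            · exact ⟨n, by omega, hi⟩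
            · exact ⟨k, by omega, hi⟩
        have h3 : Disjoint (C k) (B k) := by
          rw [Set.disjoint_left]
          intro i hi hi'
          simp only [C, mem_iUnion] at hi
          obtain ⟨n, hn, hi⟩ := hi
          exact (Set.disjoint_left.1 (hB n k (by omega))) hi hi'
        rw [h2, indicator_union_of_disjoint h3]
        rfl
      rw [h1, map_add]
      exact N_add W hW2 ih (hBN k)
  have hlim : Tendsto (fun k => indicator (C k) x) atTop (𝓝 (indicator (⋃ n, B n) x)) := by
    rw [tendsto_pi_nhds]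
    intro i
    by_cases hi : i ∈ ⋃ n, B n
    · obtain ⟨n, hn⟩ := mem_iUnion.1 hi
      apply tendsto_const_nhds.congr'
      filter_upwards [eventually_gt_atTop n] with k hk
      rw [indicator_of_mem hi, indicator_of_mem]
      exact mem_iUnion₂.2 ⟨n, hk, hn⟩
    · apply tendsto_const_nhds.congr'
      filter_upwards with k
      rw [indicator_of_notMem hi, indicator_of_notMem]
      intro hk
      obtain ⟨n, -, hn⟩ := mem_iUnion₂.1 hk
      exact hi (mem_iUnion.2 ⟨n, hn⟩)
  exact (N_closed W hWc).mem_of_tendsto (hseq hlim) (Eventually.of_forall hC)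

include hseq hW hWc hW2 in
theorem countable_add (x : I → ℝ) (D : Set I) (hD : D.Countable)
    (hDN : ∀ i ∈ D, h (indicator {i} x) ∈ ⋂ n, W n) : h (indicator D x) ∈ ⋂ n, W n := by
  classical
  obtain ⟨g, hg⟩ := Set.countable_iff_exists_injOn.1 hD
  have h1 : D = ⋃ n, {i | i ∈ D ∧ g i = n} := by
    ext i
    simp
  have h2 := sigma_add h hseq W hW hWc hW2 x (fun n => {i | i ∈ D ∧ g i = n}) (by
    intro m n hmn
    rw [Set.disjoint_left]
    rintro i ⟨-, hi⟩ ⟨-, hi'⟩
    exact hmn (hi.symm.trans hi')) (by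
    intro n
    by_cases hex : ∃ i, i ∈ D ∧ g i = n
    · obtain ⟨i, hi, hgi⟩ := hex
      have h3 : {i | i ∈ D ∧ g i = n} = {i} := by
        ext j
        simp only [mem_ofPred_eq, mem_singleton_iff]
        constructor
        · rintro ⟨hj, hgj⟩
          exact hg hj hi (hgj.trans hgi.symm)
        · rintro rfl
          exact ⟨hi, hgi⟩
      rw [h3]
      exact hDN i hi
    · have h3 : {i | i ∈ D ∧ g i = n} = ∅ := by
        ext j
        simp only [mem_ofPred_eq, mem_empty_iff_false, iff_false]
        exact fun hj => hex ⟨j, hj⟩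
      rw [h3, indicator_empty]
      have h0 : h (fun _ => 0) = 0 := map_zero h
      rw [h0]
      exact N_zero W hW hW2)
  rw [← h1] at h2
  exact h2

variable [LinearOrder I] (hI : ∀ b : I, (Iio b).Countable) [Uncountable I]

include hseq hW hWc hW2 hI in
/-- The matrix argument of Ulam. -/
theorem ulam (x : I → ℝ) : ∃ A : Set I, A.Countable ∧ h (indicator Aᶜ x) ∈ ⋂ n, W n := by
  classical
  let A0 : Set I := {i | h (indicator {i} x) ∉ ⋂ n, W n}
  have hA0 : A0.Countable := countable_bad h hseq W hW (fun i => indicator {i} x) (by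
    intro a b hab
    rw [Set.disjoint_left]
    intro i hi hi'
    have h1 : i ∈ ({a} : Set I) := by
      by_contra hc
      exact hi (indicator_of_notMem hc x)
    have h2 : i ∈ ({b} : Set I) := by
      by_contra hc
      exact hi' (indicator_of_notMem hc x)
    exact hab (h1.symm.trans h2))
  choose f hf using fun b => Set.countable_iff_exists_injOn.1 (hI b)
  let B : I → ℕ → Set I := fun a n => {b | a < b ∧ b ∉ A0 ∧ f b a = n}
  have hbad : ∀ n, {a | h (indicator (B a n) x) ∉ ⋂ n, W n}.Countable := by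
    intro n
    apply countable_bad h hseq W hW (fun a => indicator (B a n) x)
    intro a a' haa'
    rw [Set.disjoint_left]
    intro i hi hi'
    have h1 : i ∈ B a n := by
      by_contra hc
      exact hi (indicator_of_notMem hc x)
    have h2 : i ∈ B a' n := by
      by_contra hc
      exact hi' (indicator_of_notMem hc x)
    exact haa' (hf i h1.1 h2.1 (h1.2.2.trans h2.2.2.symm))
  have hall : (⋃ n, {a | h (indicator (B a n) x) ∉ ⋂ n, W n}).Countable := countable_iUnion hbad
  have hex : ∃ a, a ∉ ⋃ n, {a | h (indicator (B a n) x) ∉ ⋂ n, W n} := by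
    by_contra hc
    push Not at hc
    have : (⋃ n, {a | h (indicator (B a n) x) ∉ ⋂ n, W n}) = univ := eq_univ_of_forall hc
    rw [this] at hall
    exact not_countable_univ hall
  obtain ⟨a, ha⟩ := hex
  have ha' : ∀ n, h (indicator (B a n) x) ∈ ⋂ n, W n := by
    intro n
    by_contra hc
    exact ha (mem_iUnion.2 ⟨n, hc⟩)
  have h1 := sigma_add h hseq W hW hWc hW2 x (B a) (by
    intro m n hmn
    rw [Set.disjoint_left]
    rintro i ⟨-, -, hi⟩ ⟨-, -, hi'⟩
    exact hmn (hi.symm.trans hi')) ha'
  have hD : ({b | b ≤ a ∧ b ∉ A0} : Set I).Countable := by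
    apply ((hI a).insert a).mono
    rintro b ⟨hb, -⟩
    rcases hb.lt_or_eq with hlt | heq
    · exact Or.inr hlt
    · exact Or.inl heq
  have h2 := countable_add h hseq W hW hWc hW2 x {b | b ≤ a ∧ b ∉ A0} hD (by
    rintro i ⟨-, hi⟩
    by_contra hc
    exact hi hc)
  refine ⟨A0, hA0, ?_⟩
  have h3 : A0ᶜ = (⋃ n, B a n) ∪ {b | b ≤ a ∧ b ∉ A0} := by
    ext b
    simp only [B, mem_compl_iff, mem_union, mem_iUnion, mem_ofPred_eq]
    constructor
    · intro hb
      rcases lt_or_ge a b with hlt | hle
      · exact Or.inl ⟨f b a, hlt, hb, rfl⟩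
      · exact Or.inr ⟨hle, hb⟩
    · rintro (⟨n, -, hb, -⟩ | ⟨-, hb⟩)
      · exact hb
      · exact hb
  have h4 : Disjoint (⋃ n, B a n) {b | b ≤ a ∧ b ∉ A0} := by
    rw [Set.disjoint_left]
    intro b hb hb'
    obtain ⟨n, hn⟩ := mem_iUnion.1 hb
    exact absurd hn.1 (not_lt.2 hb'.1)
  rw [h3, indicator_union_of_disjoint h4]
  have h5 : (fun i => indicator (⋃ n, B a n) x i + indicator {b | b ≤ a ∧ b ∉ A0} x i) =
      indicator (⋃ n, B a n) x + indicator {b | b ≤ a ∧ b ∉ A0} x := rfl
  rw [h5, map_add]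
  exact N_add W hW2 h1 h2

include hseq hW hWc hW2 hI in
/-- Outside a countable set of coordinates the homomorphism takes values in `N`. -/
theorem exists_countable : ∃ A : Set I, A.Countable ∧
    ∀ y : I → ℝ, (∀ i ∈ A, y i = 0) → h y ∈ ⋂ n, W n := by
  classical
  let S : Set (Set (I → ℝ)) := {F | (∀ y ∈ F, (Function.support y).Countable ∧
    h y ∉ ⋂ n, W n) ∧ ∀ y ∈ F, ∀ z ∈ F, y ≠ z →
      Disjoint (Function.support y) (Function.support z)}
  obtain ⟨F, hF⟩ := zorn_subset S (by
    intro c hc hchain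
    refine ⟨⋃₀ c, ⟨?_, ?_⟩, fun s hs => subset_sUnion_of_mem hs⟩
    · rintro y ⟨G, hG, hy⟩
      exact (hc hG).1 y hy
    · rintro y ⟨G, hG, hy⟩ z ⟨G', hG', hz⟩ hne
      rcases hchain.total hG hG' with hsub | hsub
      · exact (hc hG').2 y (hsub hy) z hz hne
      · exact (hc hG).2 y hy z (hsub hz) hne)
  have hFS : F ∈ S := hF.prop
  have hFc : F.Countable := by
    have h1 := countable_bad h hseq W hW (J := F) (fun y => y.1) (fun a b hab =>
      hFS.2 a.1 a.2 b.1 b.2 (fun heq => hab (Subtype.ext heq)))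
    have h2 : {a : F | h a.1 ∉ ⋂ n, W n} = univ := eq_univ_of_forall fun a => (hFS.1 a.1 a.2).2
    rw [h2] at h1
    exact countable_coe_iff.1 (countable_univ_iff.1 h1)
  refine ⟨⋃ y ∈ F, Function.support y, hFc.biUnion fun y hy => (hFS.1 y hy).1, fun y hy => ?_⟩
  by_contra hcon
  obtain ⟨A, hA, hAN⟩ := ulam h hseq W hW hWc hW2 hI y
  have hsplit : y = indicator A y + indicator Aᶜ y := (indicator_self_add_compl A y).symm
  have hbad : h (indicator A y) ∉ ⋂ n, W n := by
    intro hc
    apply hcon
    rw [hsplit, map_add]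
    exact N_add W hW2 hc hAN
  have hsupp : Function.support (indicator A y) ⊆ Function.support y := by
    intro i hi hi'
    exact hi (by rw [indicator_apply, hi']; simp)
  have hmem : insert (indicator A y) F ∈ S := by
    refine ⟨?_, ?_⟩
    · intro z hz
      rcases mem_insert_iff.1 hz with hz | hz
      · rw [hz]
        refine ⟨hA.mono (fun i hi => ?_), hbad⟩
        by_contra hc
        exact hi (indicator_of_notMem hc y)
      · exact hFS.1 z hz
    · have hd : ∀ z ∈ F, Disjoint (Function.support (indicator A y)) (Function.support z) := by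
        intro z hz
        rw [Set.disjoint_left]
        intro i hi hi'
        exact hsupp hi (hy i (mem_iUnion₂.2 ⟨z, hz, hi'⟩))
      intro z hz w hw hne
      rcases mem_insert_iff.1 hz with hz | hz <;> rcases mem_insert_iff.1 hw with hw | hw
      · exact absurd (hz.trans hw.symm) hne
      · rw [hz]; exact hd w hw
      · rw [hw]; exact (hd z hz).symm
      · exact hFS.2 z hz w hw hne
  have hin : indicator A y ∈ F := (hF.le_of_ge hmem (subset_insert _ _)) (mem_insert _ _)
  have h0 : indicator A y = 0 := by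
    funext i
    by_contra hne
    exact hsupp hne (hy i (mem_iUnion₂.2 ⟨_, hin, hne⟩))
  rw [h0, map_zero] at hbad
  exact hbad (N_zero W hW hW2)

end core

/-- Every sequentially continuous homomorphism on the product of `ℵ₁` real lines is continuous. -/
theorem continuous_of_seqContinuous {I : Type} [LinearOrder I] (hI : ∀ b : I, (Iio b).Countable)
    [Uncountable I] {H : Type u} [AddGroup H] [TopologicalSpace H] [IsTopologicalAddGroup H]
    (h : (I → ℝ) →+ H) (hseq : SeqContinuous h) : Continuous h := by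
  classical
  apply continuous_of_continuousAt_zero h
  intro U hU
  rw [map_zero] at hU
  rw [mem_map]
  obtain ⟨W, hW, hWc, hW1, hW2⟩ := exists_seq hU
  obtain ⟨A, hA, hAN⟩ := exists_countable h hseq W hW hWc hW2 hI
  have hne : Nonempty I := by
    by_contra hc
    rw [not_nonempty_iff] at hc
    exact not_countable (α := I) inferInstance
  obtain ⟨i0⟩ := hne
  obtain ⟨a, ha⟩ := (hA.insert i0).exists_eq_range (insert_nonempty _ _)
  have hAa : ∀ y : I → ℝ, (∀ n, y (a n) = 0) → h y ∈ ⋂ n, W n := by
    intro y hy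
    apply hAN
    intro i hi
    have : i ∈ range a := by rw [← ha]; exact mem_insert_of_mem _ hi
    obtain ⟨n, rfl⟩ := this
    exact hy n
  have hn : ∃ n : ℕ, ∀ x : I → ℝ, (∀ k < n, |x (a k)| < 1 / ((n : ℝ) + 1)) →
      h (indicator (range a) x) ∈ W 0 := by
    by_contra hcon
    push Not at hcon
    choose x hx1 hx2 using hcon
    have hlim : Tendsto (fun n => indicator (range a) (x n)) atTop (𝓝 (0 : I → ℝ)) := by
      rw [tendsto_pi_nhds]
      intro i
      by_cases hi : i ∈ range a
      · obtain ⟨k, rfl⟩ := hi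
        rw [Metric.tendsto_atTop]
        intro ε hε
        obtain ⟨N, hN⟩ := exists_nat_one_div_lt hε
        refine ⟨max N (k + 1), fun n hn => ?_⟩
        rw [indicator_of_mem (mem_range_self k), Pi.zero_apply, dist_zero_right, Real.norm_eq_abs]
        have h1 := hx1 n k (by have := le_max_right N (k + 1); omega)
        refine h1.trans (lt_of_le_of_lt ?_ hN)
        apply one_div_le_one_div_of_le (by positivity)
        have : (N : ℝ) ≤ n := by exact_mod_cast (le_max_left N (k + 1)).trans hn
        linarith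
      · simp only [indicator_of_notMem hi]
        exact tendsto_const_nhds
    have h2 := hseq hlim
    rw [map_zero] at h2
    obtain ⟨n, hn⟩ := (h2.eventually_mem (hW 0)).exists
    exact hx2 n hn
  obtain ⟨n, hn⟩ := hn
  have hO : {x : I → ℝ | ∀ k < n, |x (a k)| < 1 / ((n : ℝ) + 1)} ∈ 𝓝 (0 : I → ℝ) := by
    have h1 : {x : I → ℝ | ∀ k < n, |x (a k)| < 1 / ((n : ℝ) + 1)} =
        ⋂ k ∈ Finset.range n, {x : I → ℝ | |x (a k)| < 1 / ((n : ℝ) + 1)} := by
      ext x
      simp
    rw [h1]
    refine (Filter.biInter_finset_mem _).2 fun k _ => ?_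
    apply IsOpen.mem_nhds
    · exact isOpen_lt ((continuous_apply (a k)).abs) continuous_const
    · show |(0 : I → ℝ) (a k)| < 1 / ((n : ℝ) + 1)
      simp only [Pi.zero_apply, abs_zero]
      positivity
  filter_upwards [hO] with x hx
  have hsplit : x = indicator (range a) x + indicator (range a)ᶜ x :=
    (indicator_self_add_compl (range a) x).symm
  show h x ∈ U
  rw [hsplit, map_add]
  apply hW1
  · exact hn x hx
  · have h2 := hAa (indicator (range a)ᶜ x) (fun n => indicator_of_notMem (by simp) x)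
    exact mem_iInter.1 h2 0

/-- An uncountable power of the real line is not a Frechet-Urysohn space. -/
theorem not_frechet (I : Type) [Uncountable I] : ¬ FrechetUrysohnSpace (I → ℝ) := by
  classical
  intro hFU
  have h1 : (fun _ => (1 : ℝ)) ∈ closure {x : I → ℝ | ∃ F : Finset I, x = indicator (F : Set I) (fun _ => 1)} := by
    rw [mem_closure_iff_nhds]
    intro O hO
    rw [nhds_pi, Filter.mem_pi] at hO
    obtain ⟨s, hs, t, ht, hst⟩ := hO
    refine ⟨indicator s (fun _ => 1), hst ?_, hs.toFinset, by simp⟩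
    intro i hi
    rw [indicator_of_mem hi]
    exact mem_of_mem_nhds (ht i)
  obtain ⟨x, hx, hlim⟩ := mem_closure_iff_seq_limit.1 h1
  choose F hF using hx
  have hc : (⋃ n, (F n : Set I)).Countable := countable_iUnion fun n => (F n).countable_toSet
  have hex : ∃ i, i ∉ ⋃ n, (F n : Set I) := by
    by_contra hcc
    push Not at hcc
    rw [eq_univ_of_forall hcc] at hc
    exact not_countable_univ hc
  obtain ⟨i, hi⟩ := hex
  have h2 := (tendsto_pi_nhds.1 hlim) i
  have h3 : ∀ n, x n i = 0 := by
    intro n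
    rw [hF n, indicator_of_notMem]
    exact fun hc => hi (mem_iUnion.2 ⟨n, hc⟩)
  simp only [h3] at h2
  have := tendsto_nhds_unique h2 tendsto_const_nhds
  exact one_ne_zero this

end Pool.Agent.W651.SGroup
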