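import Mathlib

set_option autoImplicit false

namespace Pool.Agent.W651.Rect

/-- The Baire space of sequences of naturals. -/
abbrev M := ℕ → ℕ

/-- Agreement on the first `n` places. -/
def eqv (n : ℕ) (x y : M) : Prop := ∀ k < n, x k = y k

theorem eqv_refl (n : ℕ) (x : M) : eqv n x x := fun _ _ => rfl

theorem eqv_symm {n : ℕ} {x y : M} (h : eqv n x y) : eqv n y x := fun k hk => (h k hk).symm

theorem eqv_trans {n : ℕ} {x y z : M} (h : eqv n x y) (h' : eqv n y z) : eqv n x z :=
  fun k hk => (h k hk).trans (h' k hk)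

theorem eqv_mono {m n : ℕ} (hmn : m ≤ n) {x y : M} (h : eqv n x y) : eqv m x y :=
  fun k hk => h k (lt_of_lt_of_le hk hmn)

theorem exists_not_eqv {x y : M} (h : x ≠ y) : ∃ n, ∀ m, n ≤ m → ¬ eqv m x y := by
  obtain ⟨k, hk⟩ := Function.ne_iff.1 h
  exact ⟨k + 1, fun m hm hc => hk (hc k (by omega))⟩

/-- The limit of `x` along a fixed nonprincipal ultrafilter, when it exists. -/
noncomputable def lam (x : M) : ℕ := by
  classical
  exact if h : ∃ i, ∀ᶠ n in (Filter.hyperfilter ℕ : Filter ℕ), x n = i then h.choose else 0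

theorem lam_eq {x : M} {i : ℕ} (h : ∀ᶠ n in (Filter.hyperfilter ℕ : Filter ℕ), x n = i) :
    lam x = i := by
  have hex : ∃ i, ∀ᶠ n in (Filter.hyperfilter ℕ : Filter ℕ), x n = i := ⟨i, h⟩
  unfold lam
  rw [dif_pos hex]
  have h2 := hex.choose_spec
  obtain ⟨n, hn1, hn2⟩ := (h.and h2).exists
  exact hn2.symm.trans hn1

/-- Limits of coherent sequences of finite strings. -/
theorem exists_limit (a : ℕ → M) (n : ℕ → ℕ) (hn : ∀ k, n k < n (k + 1))
    (ha : ∀ k, eqv (n k) (a k) (a (k + 1))) : ∃ x : M, ∀ k, eqv (n k) (a k) x := by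
  have hmono : StrictMono n := strictMono_nat_of_lt_succ hn
  have hst : ∀ j k, j ≤ k → eqv (n j) (a j) (a k) := by
    intro j k hjk
    induction k, hjk using Nat.le_induction with
    | base => exact eqv_refl _ _
    | succ k hjk ih =>
      exact eqv_trans ih (eqv_mono (hmono.monotone hjk) (ha k))
  refine ⟨fun p => a (p + 1) p, fun k p hp => ?_⟩
  rcases le_total k (p + 1) with h | h
  · exact hst k (p + 1) h p hp
  · have h1 : p < n (p + 1) := lt_of_lt_of_le (Nat.lt_succ_self p) (hmono.id_le (p + 1))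
    exact (hst (p + 1) k h p h1).symm

/-- Key lemma: the elements of any prescribed value are of second category everywhere. -/
theorem key (i : ℕ) (s : M) (n0 : ℕ) (U : ℕ → Set M)
    (hU : ∀ k, ∀ t : M, ∀ n, ∃ (t' : M) (n' : ℕ), n ≤ n' ∧ eqv n t t' ∧
      ∀ w, eqv n' t' w → w ∈ U k) :
    ∃ x : M, eqv n0 s x ∧ (∀ k, x ∈ U k) ∧ lam x = i := by
  classical
  let R : ℕ → (M × M × ℕ) → (M × M × ℕ) → Prop := fun k p q =>
    p.2.2 < q.2.2 ∧ eqv p.2.2 p.1 q.1 ∧ eqv p.2.2 p.2.1 q.2.1 ∧
    (∀ r, p.2.2 ≤ r → r < q.2.2 → q.1 r = i ∨ q.2.1 r = i) ∧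
    (∀ w, eqv q.2.2 q.1 w → w ∈ U k) ∧ (∀ w, eqv q.2.2 q.2.1 w → w ∈ U k)
  have hR : ∀ k p, ∃ q, R k p q := by
    rintro k ⟨a, b, n⟩
    obtain ⟨a1, n1, hn1, ha1, hU1⟩ := hU k a n
    obtain ⟨b1, n2, hn2, hb1, hU2⟩ := hU k (fun r => if r < n then b r else i) (n1 + 1)
    refine ⟨(fun r => if r < n1 then a1 r else i, b1, n2), ?_, ?_, ?_, ?_, ?_, ?_⟩
    · show n < n2
      omega
    · intro r hr
      show a r = if r < n1 then a1 r else i
      have : r < n := hr
      rw [if_pos (by omega)]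
      exact ha1 r this
    · intro r hr
      have h1 : r < n := hr
      have h2 := hb1 r (by omega)
      show b r = b1 r
      rw [← h2]
      simp [h1]
    · intro r hr1 hr2
      have h1 : n ≤ r := hr1
      show (if r < n1 then a1 r else i) = i ∨ b1 r = i
      by_cases h : r < n1
      · right
        have h2 := hb1 r (by omega)
        rw [← h2]
        simp [h1]
      · left
        rw [if_neg h]
    · intro w hw
      apply hU1
      intro r hr
      have h2 := hw r (show r < n2 by omega)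
      rw [← h2]
      show a1 r = if r < n1 then a1 r else i
      rw [if_pos hr]
    · intro w hw
      exact hU2 w hw
  choose F hF using hR
  let S : ℕ → (M × M × ℕ) := fun k => Nat.rec (s, s, n0) (fun k p => F k p) k
  have hS : ∀ k, R k (S k) (S (k + 1)) := fun k => hF k (S k)
  have hS0 : S 0 = (s, s, n0) := rfl
  obtain ⟨x, hx⟩ := exists_limit (fun k => (S k).1) (fun k => (S k).2.2) (fun k => (hS k).1)
    (fun k => (hS k).2.1)
  obtain ⟨y, hy⟩ := exists_limit (fun k => (S k).2.1) (fun k => (S k).2.2) (fun k => (hS k).1)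
    (fun k => (hS k).2.2.1)
  have hmono : StrictMono (fun k => (S k).2.2) := strictMono_nat_of_lt_succ (fun k => (hS k).1)
  have hcov : ∀ r, n0 ≤ r → x r = i ∨ y r = i := by
    intro r hr
    have hex : ∃ k, r < (S k).2.2 := ⟨r + 1, lt_of_lt_of_le (Nat.lt_succ_self r) (hmono.id_le (r + 1))⟩
    have h1 := Nat.find_spec hex
    have h0 : Nat.find hex ≠ 0 := by
      intro h
      rw [h, hS0] at h1
      exact absurd h1 (by simpa using hr)
    obtain ⟨k, hk⟩ := Nat.exists_eq_succ_of_ne_zero h0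
    have h2 : ¬ r < (S k).2.2 := Nat.find_min hex (by omega)
    rw [hk] at h1
    have h3 := (hS k).2.2.2.1 r (not_lt.1 h2) h1
    rw [hx (k + 1) r h1, hy (k + 1) r h1] at h3
    exact h3
  have hev : ∀ᶠ r in (Filter.hyperfilter ℕ : Filter ℕ), x r = i ∨ y r = i := by
    have : ∀ᶠ r in (Filter.cofinite : Filter ℕ), n0 ≤ r := by
      rw [Nat.cofinite_eq_atTop]
      exact Filter.eventually_ge_atTop n0
    exact Filter.Eventually.mono (Filter.hyperfilter_le_cofinite this) hcov
  rcases Ultrafilter.eventually_or.1 hev with h | h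
  · exact ⟨x, hx 0, fun k => (hS k).2.2.2.2.1 x (hx (k + 1)), lam_eq h⟩
  · exact ⟨y, hy 0, fun k => (hS k).2.2.2.2.2 y (hy (k + 1)), lam_eq h⟩

end Pool.Agent.W651.Rect
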