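import Mathlib
import Pool.Agent.W651.RectBase

set_option autoImplicit false

open Topology

namespace Pool.Agent.W651.Rect

/-- Vertices (the diagonal) and edges (pairs whose values increase by one). -/
def Y : Type := {p : M × M // p.1 = p.2 ∨ lam p.2 = lam p.1 + 1}

/-- The vertex at `v`. -/
def vtx (v : M) : Y := ⟨(v, v), Or.inl rfl⟩

/-- The basic neighbourhood of a vertex. -/
def bal (n : ℕ) (v : M) : Set Y :=
  {y | (y.1.1 = v ∨ y.1.2 = v) ∧ eqv n v y.1.1 ∧ eqv n v y.1.2}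

theorem bal_mono {m n : ℕ} (h : m ≤ n) (v : M) : bal n v ⊆ bal m v :=
  fun _ hy => ⟨hy.1, eqv_mono h hy.2.1, eqv_mono h hy.2.2⟩

theorem vtx_mem_bal (n : ℕ) (v : M) : vtx v ∈ bal n v := ⟨Or.inl rfl, eqv_refl _ _, eqv_refl _ _⟩

instance : TopologicalSpace Y where
  IsOpen U := ∀ v : M, vtx v ∈ U → ∃ n, bal n v ⊆ U
  isOpen_univ := fun _ _ => ⟨0, Set.subset_univ _⟩
  isOpen_inter := by
    intro s t hs ht v hv
    obtain ⟨n, hn⟩ := hs v hv.1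
    obtain ⟨m, hm⟩ := ht v hv.2
    exact ⟨max n m, Set.subset_inter ((bal_mono (le_max_left _ _) v).trans hn)
      ((bal_mono (le_max_right _ _) v).trans hm)⟩
  isOpen_sUnion := by
    intro S hS v hv
    obtain ⟨t, ht, hvt⟩ := hv
    obtain ⟨n, hn⟩ := hS t ht v hvt
    exact ⟨n, hn.trans (Set.subset_sUnion_of_mem ht)⟩

theorem isOpen_Y {U : Set Y} : IsOpen U ↔ ∀ v : M, vtx v ∈ U → ∃ n, bal n v ⊆ U := Iff.rfl

/-- Coarse agreement of order `n`, as a setoid. -/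
def ceq (n : ℕ) : Setoid Y where
  r y z := eqv n y.1.1 z.1.1 ∧ eqv n y.1.2 z.1.2
  iseqv := ⟨fun _ => ⟨eqv_refl _ _, eqv_refl _ _⟩,
    fun h => ⟨eqv_symm h.1, eqv_symm h.2⟩,
    fun h h' => ⟨eqv_trans h.1 h'.1, eqv_trans h.2 h'.2⟩⟩

theorem ceq_def {n : ℕ} {y z : Y} :
    (ceq n) y z ↔ eqv n y.1.1 z.1.1 ∧ eqv n y.1.2 z.1.2 := Iff.rfl

theorem ceq_zero (y z : Y) : (ceq 0) y z :=
  ⟨fun k hk => absurd hk (Nat.not_lt_zero k), fun k hk => absurd hk (Nat.not_lt_zero k)⟩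

theorem ceq_mono {m n : ℕ} (h : m ≤ n) {y z : Y} (hyz : (ceq n) y z) : (ceq m) y z :=
  ⟨eqv_mono h hyz.1, eqv_mono h hyz.2⟩

theorem Y_ext {y z : Y} (h1 : y.1.1 = z.1.1) (h2 : y.1.2 = z.1.2) : y = z :=
  Subtype.ext (Prod.ext h1 h2)

theorem exists_not_ceq {y z : Y} (h : y ≠ z) : ∃ n, ∀ m, n ≤ m → ¬ (ceq m) y z := by
  by_cases h1 : y.1.1 = z.1.1
  · have h2 : y.1.2 ≠ z.1.2 := fun h2 => h (Y_ext h1 h2)
    obtain ⟨n, hn⟩ := exists_not_eqv h2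
    exact ⟨n, fun m hm hc => hn m hm hc.2⟩
  · obtain ⟨n, hn⟩ := exists_not_eqv h1
    exact ⟨n, fun m hm hc => hn m hm hc.1⟩

theorem isOpen_ceq (n : ℕ) (y : Y) : IsOpen {z : Y | (ceq n) y z} := by
  intro v hv
  refine ⟨n, fun z hz => ?_⟩
  exact ⟨eqv_trans hv.1 hz.2.1, eqv_trans hv.2 hz.2.2⟩

theorem isOpen_bal (n : ℕ) (v : M) : IsOpen (bal n v) := by
  intro w hw
  have h : w = v := by
    rcases hw.1 with h | h
    · exact h
    · exact h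
  subst h
  exact ⟨n, subset_rfl⟩

/-- Closedness for the coarse topology. -/
def CL (B : Set Y) : Prop := ∀ z, z ∉ B → ∃ n, ∀ y, (ceq n) z y → y ∉ B

theorem CL_bal (n : ℕ) (v : M) : CL (bal n v) := by
  intro z hz
  by_cases h1 : z.1.1 = v ∨ z.1.2 = v
  · refine ⟨n, fun y hy hyB => hz ⟨h1, ?_, ?_⟩⟩
    · exact eqv_trans hyB.2.1 (eqv_symm hy.1)
    · exact eqv_trans hyB.2.2 (eqv_symm hy.2)
  · push Not at h1
    obtain ⟨a, ha⟩ := exists_not_eqv h1.1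
    obtain ⟨b, hb⟩ := exists_not_eqv h1.2
    refine ⟨max a b, fun y hy hyB => ?_⟩
    rcases hyB.1 with h | h
    · exact ha (max a b) (le_max_left _ _) (h ▸ hy.1)
    · exact hb (max a b) (le_max_right _ _) (h ▸ hy.2)

theorem CL_singleton (y : Y) : CL {y} := by
  intro z hz
  obtain ⟨n, hn⟩ := exists_not_ceq hz
  refine ⟨n, fun w hw hwy => hn n le_rfl ?_⟩
  rw [Set.mem_singleton_iff] at hwy
  rw [← hwy]
  exact hw

theorem exists_CL_nhd {y : Y} {U : Set Y} (hU : U ∈ 𝓝 y) :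
    ∃ B : Set Y, IsOpen B ∧ y ∈ B ∧ B ⊆ U ∧ CL B := by
  obtain ⟨V, hVU, hVo, hyV⟩ := mem_nhds_iff.1 hU
  by_cases h : y.1.1 = y.1.2
  · have hy : y = vtx y.1.1 := Y_ext rfl h.symm
    obtain ⟨n, hn⟩ := hVo y.1.1 (hy ▸ hyV)
    have hmem : vtx y.1.1 ∈ bal n y.1.1 := vtx_mem_bal _ _
    rw [← hy] at hmem
    exact ⟨bal n y.1.1, isOpen_bal _ _, hmem, hn.trans hVU, CL_bal _ _⟩
  · refine ⟨{y}, ?_, rfl, ?_, CL_singleton y⟩
    · intro v hv
      exfalso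
      rw [Set.mem_singleton_iff] at hv
      exact h (by rw [← hv]; rfl)
    · intro z hz
      rw [Set.mem_singleton_iff] at hz
      rw [hz]
      exact hVU hyV

/-- The level of a point. -/
noncomputable def lv (y : Y) : ℕ := lam y.1.2

theorem lv_fst (y : Y) : lam y.1.1 ≤ lv y ∧ lv y ≤ lam y.1.1 + 1 := by
  unfold lv
  rcases y.2 with h | h
  · rw [h]; omega
  · omega

theorem isOpen_lv (j : ℕ) : IsOpen {y : Y | j < lv y} := by
  intro v hv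
  refine ⟨0, fun y hy => ?_⟩
  have hv' : j < lam v := hv
  show j < lv y
  rcases hy.1 with h | h
  · have := (lv_fst y).1
    rw [h] at this
    omega
  · unfold lv
    rw [h]
    exact hv'

/-- Sharing an endpoint. -/
def Adj (y z : Y) : Prop := ∃ u : M, (y.1.1 = u ∨ y.1.2 = u) ∧ (z.1.1 = u ∨ z.1.2 = u)

theorem Adj_refl (y : Y) : Adj y y := ⟨y.1.1, Or.inl rfl, Or.inl rfl⟩

theorem Adj_lv {y z : Y} (h : Adj y z) {j : ℕ} (hj : j + 1 < lv y) : j < lv z := by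
  obtain ⟨u, hu1, hu2⟩ := h
  have h1 := lv_fst y
  have h2 := lv_fst z
  have h3 : j < lam u := by
    rcases hu1 with h | h
    · rw [← h]; omega
    · rw [← h]
      unfold lv at hj
      omega
  rcases hu2 with h | h
  · rw [← h] at h3; omega
  · rw [← h] at h3
    exact h3

/-- Sharing an endpoint is locally constant. -/
theorem Adj_locally (y z : Y) : ∃ U V : Set Y, IsOpen U ∧ IsOpen V ∧ y ∈ U ∧ z ∈ V ∧
    ∀ y' ∈ U, ∀ z' ∈ V, (Adj y' z' ↔ Adj y z) := by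
  by_cases h : Adj y z
  · obtain ⟨u, hu1, hu2⟩ := h
    have h0 : ∀ w : M, eqv 0 u w := fun w k hk => absurd hk (Nat.not_lt_zero k)
    refine ⟨bal 0 u, bal 0 u, isOpen_bal _ _, isOpen_bal _ _, ⟨hu1, h0 _, h0 _⟩,
      ⟨hu2, h0 _, h0 _⟩, fun y' hy' z' hz' => ?_⟩
    exact ⟨fun _ => ⟨u, hu1, hu2⟩, fun _ => ⟨u, hy'.1, hz'.1⟩⟩
  · have hh : y.1.1 ≠ z.1.1 ∧ y.1.1 ≠ z.1.2 ∧ y.1.2 ≠ z.1.1 ∧ y.1.2 ≠ z.1.2 := by
      refine ⟨fun e => h ⟨y.1.1, Or.inl rfl, Or.inl e.symm⟩,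
        fun e => h ⟨y.1.1, Or.inl rfl, Or.inr e.symm⟩,
        fun e => h ⟨y.1.2, Or.inr rfl, Or.inl e.symm⟩,
        fun e => h ⟨y.1.2, Or.inr rfl, Or.inr e.symm⟩⟩
    obtain ⟨a, ha⟩ := exists_not_eqv hh.1
    obtain ⟨b, hb⟩ := exists_not_eqv hh.2.1
    obtain ⟨c, hc⟩ := exists_not_eqv hh.2.2.1
    obtain ⟨d, hd⟩ := exists_not_eqv hh.2.2.2
    let n := max (max a b) (max c d)
    have hna : a ≤ n := by simp [n]
    have hnb : b ≤ n := by simp [n]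
    have hnc : c ≤ n := by simp [n]
    have hnd : d ≤ n := by simp [n]
    refine ⟨_, _, isOpen_ceq n y, isOpen_ceq n z, (ceq n).refl y, (ceq n).refl z,
      fun y' hy' z' hz' => ⟨fun hadj => ?_, fun hadj => absurd hadj h⟩⟩
    exfalso
    obtain ⟨u, hu1, hu2⟩ := hadj
    have key1 : ∀ p q r s : M, eqv n p q → q = u → eqv n r s → s = u → eqv n p r := by
      intro p q r s h1 h2 h3 h4
      rw [h2] at h1
      rw [h4] at h3
      exact eqv_trans h1 (eqv_symm h3)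
    rcases hu1 with h1 | h1 <;> rcases hu2 with h2 | h2
    · exact ha n hna (key1 _ _ _ _ hy'.1 h1 hz'.1 h2)
    · exact hb n hnb (key1 _ _ _ _ hy'.1 h1 hz'.2 h2)
    · exact hc n hnc (key1 _ _ _ _ hy'.2 h1 hz'.1 h2)
    · exact hd n hnd (key1 _ _ _ _ hy'.2 h1 hz'.2 h2)

/-- The linking lemma. -/
theorem linking (f : Y → ℝ) (hf : Continuous f) (h0 : ∀ y, lv y = 0 → f y = 1) (j : ℕ) :
    ∀ c : ℝ, c < 1 → ∀ (s : M) (n0 : ℕ), ∃ v : M, eqv n0 s v ∧ lam v = j ∧ c < f (vtx v) := by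
  induction j with
  | zero =>
    intro c hc s n0
    obtain ⟨v, hv1, -, hv2⟩ := key 0 s n0 (fun _ => Set.univ)
      (fun k t n => ⟨t, n, le_rfl, eqv_refl _ _, fun _ _ => Set.mem_univ _⟩)
    refine ⟨v, hv1, hv2, ?_⟩
    rw [h0 (vtx v) hv2]
    exact hc
  | succ j ih =>
    intro c hc s n0
    obtain ⟨c', hc1, hc2⟩ := exists_between hc
    have hopen : ∀ v : M, c' < f (vtx v) → ∃ n, bal n v ⊆ {y | c' < f y} := fun v hv =>
      (isOpen_lt continuous_const hf : IsOpen {y | c' < f y}) v hv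
    choose! N hN using hopen
    obtain ⟨w, hw1, hw2, hw3⟩ := key (j + 1) s n0
      (fun k => {w | ∃ v : M, lam v = j ∧ c' < f (vtx v) ∧ eqv (max (N v) k) v w}) (by
        intro k t n
        obtain ⟨v, hv1, hv2, hv3⟩ := ih c' hc2 t n
        refine ⟨v, max n (max (N v) k), le_max_left _ _, hv1, fun w hw => ⟨v, hv2, hv3, ?_⟩⟩
        exact eqv_mono (le_max_right _ _) hw)
    refine ⟨w, hw1, hw3, ?_⟩
    by_contra hcon
    have hlt : f (vtx w) < c' := lt_of_le_of_lt (not_lt.1 hcon) hc1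
    obtain ⟨n, hn⟩ := (isOpen_lt hf continuous_const : IsOpen {y | f y < c'}) w hlt
    obtain ⟨v, hv1, hv2, hv3⟩ := hw2 n
    let e : Y := ⟨(v, w), Or.inr (by show lam w = lam v + 1; rw [hw3, hv1])⟩
    have he1 : e ∈ bal n w :=
      ⟨Or.inr rfl, eqv_symm (eqv_mono (le_max_right _ _) hv3), eqv_refl _ _⟩
    have he2 : e ∈ bal (N v) v :=
      ⟨Or.inl rfl, eqv_refl _ _, eqv_mono (le_max_left _ _) hv3⟩
    have h1 : f e < c' := hn he1
    have h2 : c' < f e := hN v hv2 he2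
    exact lt_asymm h1 h2

end Pool.Agent.W651.Rect
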