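import Mathlib
import Pool.Agent.W651.RectY

set_option autoImplicit false

open Topology

namespace Pool.Agent.W651.Rect

/-- The Boolean group on `Y`. -/
def G : Type := Y →₀ ZMod 2

noncomputable instance : AddCommGroup G := inferInstanceAs (AddCommGroup (Y →₀ ZMod 2))

/-- The generator attached to a point. -/
noncomputable def sg (y : Y) : G := Finsupp.single y (1 : ZMod 2)

/-- The support of an element. -/
noncomputable def sp (x : G) : Finset Y := Finsupp.support (show Y →₀ ZMod 2 from x)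

/-- Projection onto the classes of a setoid. -/
noncomputable def pj (s : Setoid Y) : G →+ (Quotient s →₀ ZMod 2) :=
  (Finsupp.mapDomain.addMonoidHom (Quotient.mk s) : (Y →₀ ZMod 2) →+ (Quotient s →₀ ZMod 2))

/-- The parity of an element on a class. -/
noncomputable def par (s : Setoid Y) (a : Y) (x : G) : ZMod 2 := pj s x (Quotient.mk s a)

theorem par_add (s : Setoid Y) (a : Y) (x y : G) : par s a (x + y) = par s a x + par s a y := by
  unfold par
  rw [map_add]
  rfl

theorem par_zero (s : Setoid Y) (a : Y) : par s a 0 = 0 := by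
  unfold par
  rw [map_zero]
  rfl

open Classical in
theorem par_eq (s : Setoid Y) (a : Y) (x : G) :
    par s a x = Finsupp.sum (show Y →₀ ZMod 2 from x) (fun b c => if s a b then c else 0) := by
  show (Finsupp.mapDomain (Quotient.mk s) (show Y →₀ ZMod 2 from x)) (Quotient.mk s a) = _
  unfold Finsupp.mapDomain
  rw [Finsupp.sum_apply]
  apply Finsupp.sum_congr
  intro b _
  rw [Finsupp.single_apply]
  by_cases h : s a b
  · rw [if_pos h, if_pos (Quotient.sound (s.symm h))]
  · rw [if_neg h, if_neg (fun h' => h (s.symm (Quotient.exact h')))]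

theorem par_congr {s s' : Setoid Y} {a a' : Y} (h : ∀ z, s a z ↔ s' a' z) (x : G) :
    par s a x = par s' a' x := by
  classical
  rw [par_eq, par_eq]
  apply Finsupp.sum_congr
  intro b _
  by_cases hb : s a b
  · rw [if_pos hb, if_pos ((h b).1 hb)]
  · rw [if_neg hb, if_neg (fun h' => hb ((h b).2 h'))]

theorem par_class {s : Setoid Y} {a a' : Y} (h : s a a') (x : G) : par s a x = par s a' x :=
  par_congr (fun _ => ⟨fun hz => s.trans (s.symm h) hz, fun hz => s.trans h hz⟩) x

theorem par_descent {s s' : Setoid Y} (h : s ≤ s') {a : Y} {x : G} (hp : par s' a x ≠ 0) :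
    ∃ a', s' a a' ∧ par s a' x ≠ 0 := by
  classical
  let π : Quotient s → Quotient s' := Quotient.map' id (fun _ _ hab => h hab)
  have hπ : ∀ y, π (Quotient.mk s y) = Quotient.mk s' y := fun y => rfl
  have hcomp : pj s' x = Finsupp.mapDomain π (pj s x) := by
    show Finsupp.mapDomain (Quotient.mk s') (show Y →₀ ZMod 2 from x) =
      Finsupp.mapDomain π (Finsupp.mapDomain (Quotient.mk s) (show Y →₀ ZMod 2 from x))
    rw [← Finsupp.mapDomain_comp]
    rfl
  unfold par at hp
  rw [hcomp] at hp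
  have hmem : Quotient.mk s' a ∈ (Finsupp.mapDomain π (pj s x)).support :=
    Finsupp.mem_support_iff.2 hp
  have := Finsupp.mapDomain_support hmem
  rw [Finset.mem_image] at this
  obtain ⟨q, hq1, hq2⟩ := this
  obtain ⟨a', rfl⟩ := Quotient.exists_rep q
  refine ⟨a', ?_, Finsupp.mem_support_iff.1 hq1⟩
  exact s'.symm (Quotient.exact hq2)

theorem par_ne_zero {s : Setoid Y} {a : Y} {x : G} (hp : par s a x ≠ 0) :
    ∃ b ∈ sp x, s a b := by
  classical
  by_contra hcon
  push Not at hcon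
  apply hp
  rw [par_eq, Finsupp.sum]
  apply Finset.sum_eq_zero
  intro b hb
  rw [if_neg (hcon b hb)]

theorem par_eq_apply {s : Setoid Y} {a : Y} {x : G}
    (h : ∀ b ∈ sp x, s a b → b = a) : par s a x = (show Y →₀ ZMod 2 from x) a := by
  classical
  rw [par_eq, Finsupp.sum]
  rw [Finset.sum_eq_single a]
  · rw [if_pos (s.refl a)]
  · intro b hb hba
    rw [if_neg (fun hs => hba (h b hb hs))]
  · intro ha
    rw [if_pos (s.refl a)]
    exact Finsupp.notMem_support_iff.1 ha

theorem mem_sp {x : G} {a : Y} : a ∈ sp x ↔ (show Y →₀ ZMod 2 from x) a ≠ 0 :=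
  Finsupp.mem_support_iff

/-- Elements all of whose class parities vanish. -/
def H (s : Setoid Y) (x : G) : Prop := ∀ a, par s a x = 0

theorem H_zero (s : Setoid Y) : H s 0 := fun a => par_zero s a

theorem H_add {s : Setoid Y} {x y : G} (hx : H s x) (hy : H s y) : H s (x + y) := fun a => by
  rw [par_add, hx a, hy a, add_zero]

theorem H_mono {s s' : Setoid Y} (h : s ≤ s') {x : G} (hx : H s x) : H s' x := by
  intro a
  by_contra hp
  obtain ⟨a', -, ha'⟩ := par_descent h hp
  exact ha' (hx a')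

theorem add_self' (x : G) : x + x = 0 := by
  show (show Y →₀ ZMod 2 from x) + (show Y →₀ ZMod 2 from x) = (0 : Y →₀ ZMod 2)
  ext a
  rw [Finsupp.add_apply]
  show _ = (0 : ZMod 2)
  generalize (show Y →₀ ZMod 2 from x) a = t
  revert t
  decide

theorem add_add_self (x y : G) : x + y + y = x := by
  rw [add_assoc, add_self', add_zero]

theorem zmod2_eq {a b : ZMod 2} (h : a + b = 0) : a = b := by
  revert a b
  decide

theorem par_eq_of_H {s : Setoid Y} {x y : G} (h : H s (x + y)) (a : Y) : par s a x = par s a y := by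
  have := h a
  rw [par_add] at this
  exact zmod2_eq this

/-- Setoids with open classes. -/
def adm (s : Setoid Y) : Prop := ∀ y, IsOpen {z : Y | s y z}

theorem adm_ceq (n : ℕ) : adm (ceq n) := fun y => isOpen_ceq n y

theorem adm_inf {s s' : Setoid Y} (h : adm s) (h' : adm s') : adm (s ⊓ s') := fun y =>
  (h y).inter (h' y)

instance : TopologicalSpace G where
  IsOpen U := ∀ g, g ∈ U → ∃ s, adm s ∧ ∀ h, H s h → g + h ∈ U
  isOpen_univ := fun _ _ => ⟨ceq 0, adm_ceq 0, fun _ _ => Set.mem_univ _⟩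
  isOpen_inter := by
    intro U V hU hV g hg
    obtain ⟨s, hs, hs'⟩ := hU g hg.1
    obtain ⟨t, ht, ht'⟩ := hV g hg.2
    exact ⟨s ⊓ t, adm_inf hs ht, fun h hh =>
      ⟨hs' h (H_mono inf_le_left hh), ht' h (H_mono inf_le_right hh)⟩⟩
  isOpen_sUnion := by
    intro S hS g hg
    obtain ⟨U, hU, hgU⟩ := hg
    obtain ⟨s, hs, hs'⟩ := hS U hU g hgU
    exact ⟨s, hs, fun h hh => ⟨U, hU, hs' h hh⟩⟩

theorem isOpen_coset {s : Setoid Y} (hs : adm s) (x0 : G) : IsOpen {x : G | H s (x + x0)} := by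
  intro g hg
  refine ⟨s, hs, fun h hh => ?_⟩
  show H s (g + h + x0)
  rw [add_right_comm]
  exact H_add hg hh

theorem self_mem_coset (s : Setoid Y) (x0 : G) : H s (x0 + x0) := by
  rw [add_self']
  exact H_zero s

theorem coset_mem_nhds {s : Setoid Y} (hs : adm s) (x0 : G) : ∀ᶠ x in 𝓝 x0, H s (x + x0) :=
  (isOpen_coset hs x0).mem_nhds (self_mem_coset s x0)

theorem mem_nhds_G {x0 : G} {U : Set G} :
    U ∈ 𝓝 x0 ↔ ∃ s, adm s ∧ ∀ x, H s (x + x0) → x ∈ U := by
  constructor
  · intro h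
    obtain ⟨V, hVU, hV, hxV⟩ := mem_nhds_iff.1 h
    obtain ⟨s, hs, hs'⟩ := hV x0 hxV
    refine ⟨s, hs, fun x hx => hVU ?_⟩
    have := hs' (x + x0) hx
    rwa [add_comm x x0, ← add_assoc, add_self', zero_add] at this
  · rintro ⟨s, hs, hs'⟩
    exact Filter.mem_of_superset (coset_mem_nhds hs x0) hs'

theorem continuous_addG : Continuous (fun p : G × G => p.1 + p.2) := by
  rw [continuous_iff_continuousAt]
  rintro ⟨x0, y0⟩
  intro U hU
  obtain ⟨s, hs, hs'⟩ := mem_nhds_G.1 hU
  have h1 := (coset_mem_nhds hs x0).prod_nhds (coset_mem_nhds hs y0)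
  rw [Filter.mem_map]
  refine Filter.mem_of_superset h1 ?_
  rintro ⟨x, y⟩ ⟨hx, hy⟩
  apply hs'
  show H s (x + y + (x0 + y0))
  have hx' : H s (x + x0) := hx
  have hy' : H s (y + y0) := hy
  have := H_add hx' hy'
  rwa [add_add_add_comm] at this

theorem continuous_sg : Continuous sg := by
  classical
  rw [continuous_iff_continuousAt]
  intro y0 U hU
  obtain ⟨s, hs, hs'⟩ := mem_nhds_G.1 hU
  rw [Filter.mem_map]
  refine Filter.mem_of_superset ((hs y0).mem_nhds (s.refl y0)) ?_
  intro y hy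
  apply hs'
  intro a
  rw [par_add]
  have h1 : ∀ z : Y, par s a (sg z) = if s a z then 1 else 0 := by
    intro z
    rw [par_eq]
    unfold sg
    exact Finsupp.sum_single_index (by simp)
  have hy' : s y0 y := hy
  rw [h1, h1]
  by_cases h : s a y0
  · rw [if_pos h, if_pos (s.trans h hy')]
    decide
  · rw [if_neg h, if_neg (fun h' => h (s.trans h' (s.symm hy')))]
    decide

/-- Finite sets are separated by the coarse setoids. -/
theorem exists_sep (F : Finset Y) : ∃ N, ∀ m, N ≤ m → ∀ a ∈ F, ∀ b ∈ F, (ceq m) a b → a = b := by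
  classical
  have h : ∀ a b : Y, ∃ n, ∀ m, n ≤ m → (ceq m) a b → a = b := by
    intro a b
    by_cases hab : a = b
    · exact ⟨0, fun _ _ _ => hab⟩
    · obtain ⟨n, hn⟩ := exists_not_ceq hab
      exact ⟨n, fun m hm hc => absurd hc (hn m hm)⟩
  choose n hn using h
  refine ⟨(F ×ˢ F).sup (fun p => n p.1 p.2), fun m hm a ha b hb hab => ?_⟩
  apply hn a b m _ hab
  exact le_trans (Finset.le_sup (f := fun p : Y × Y => n p.1 p.2)
    (Finset.mem_product.2 ⟨ha, hb⟩ : (a, b) ∈ F ×ˢ F)) hm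

theorem exists_not_H {x : G} (hx : x ≠ 0) : ∃ n, ¬ H (ceq n) x := by
  obtain ⟨N, hN⟩ := exists_sep (sp x)
  have hne : (show Y →₀ ZMod 2 from x) ≠ 0 := hx
  obtain ⟨a, ha⟩ := Finsupp.support_nonempty_iff.2 hne
  refine ⟨N, fun h => ?_⟩
  have h1 := h a
  rw [par_eq_apply (fun b hb hab => (hN N le_rfl a ha b hb hab).symm)] at h1
  exact mem_sp.1 ha h1

instance : T1Space G := by
  rw [t1Space_iff_exists_open]
  intro x y hxy
  have hne : x + y ≠ 0 := by
    intro h
    apply hxy
    have h2 : x + y + y = y := by rw [h, zero_add]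
    rwa [add_add_self] at h2
  obtain ⟨n, hn⟩ := exists_not_H hne
  refine ⟨_, isOpen_coset (adm_ceq n) x, self_mem_coset _ x, fun h => hn ?_⟩
  have : H (ceq n) (y + x) := h
  rwa [add_comm] at this

/-- The points all of whose coarse classes are odd. -/
def Z (x : G) : Set Y := {y | ∀ n, par (ceq n) y x ≠ 0}

theorem Z_subset (x : G) : Z x ⊆ (sp x : Set Y) := by
  classical
  intro y hy
  obtain ⟨N, hN⟩ := exists_sep (insert y (sp x))
  have h1 := hy N
  rw [par_eq_apply (fun b hb hab => (hN N le_rfl y (Finset.mem_insert_self _ _) b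
    (Finset.mem_insert_of_mem hb) hab).symm)] at h1
  exact mem_sp.2 h1

theorem Z_finite (x : G) : (Z x).Finite := (sp x).finite_toSet.subset (Z_subset x)

theorem Z_even {x : G} (h : H (ceq 0) x) : Z x = ∅ := by
  rw [Set.eq_empty_iff_forall_notMem]
  intro y hy
  exact hy 0 (h y)

theorem H_ceq_zero {n : ℕ} {x : G} (h : H (ceq n) x) : H (ceq 0) x :=
  H_mono (fun _ _ hab => ceq_mono (Nat.zero_le n) hab) h

theorem Z_sg (y : Y) : Z (sg y) = {y} := by
  classical
  have hsp : sp (sg y) = {y} := by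
    unfold sp sg
    exact Finsupp.support_single y (by decide)
  apply Set.Subset.antisymm
  · intro z hz
    have := Z_subset _ hz
    rw [hsp] at this
    simpa using this
  · intro z hz n
    rw [Set.mem_singleton_iff] at hz
    subst hz
    rw [par_eq_apply (fun b hb _ => by rw [hsp] at hb; simpa using hb)]
    show (Finsupp.single z (1 : ZMod 2)) z ≠ 0
    rw [Finsupp.single_eq_same]
    decide

/-- Descent along odd classes. -/
theorem descent {x : G} {N : ℕ} {a : Y} (h : par (ceq N) a x ≠ 0) :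
    ∃ y, (ceq N) a y ∧ ∀ m, N ≤ m → par (ceq m) y x ≠ 0 := by
  have hstep : ∀ k, ∃ y, (ceq N) a y ∧ ∀ m, N ≤ m → m ≤ N + k → par (ceq m) y x ≠ 0 := by
    intro k
    induction k with
    | zero =>
      refine ⟨a, (ceq N).refl a, fun m h1 h2 => ?_⟩
      have : m = N := by omega
      rw [this]
      exact h
    | succ k ih =>
      obtain ⟨y, hy1, hy2⟩ := ih
      obtain ⟨y', hy1', hy2'⟩ := par_descent (s := ceq (N + k + 1)) (s' := ceq (N + k))
        (fun _ _ hab => ceq_mono (Nat.le_succ _) hab) (hy2 (N + k) (by omega) le_rfl)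
      refine ⟨y', (ceq N).trans hy1 (ceq_mono (by omega) hy1'), fun m h1 h2 => ?_⟩
      rcases Nat.lt_or_ge m (N + k + 1) with hm | hm
      · rw [← par_class (ceq_mono (by omega : m ≤ N + k) hy1') x]
        exact hy2 m h1 (by omega)
      · have : m = N + k + 1 := by omega
        rw [this]
        exact hy2'
  obtain ⟨K, hK⟩ := exists_sep (sp x)
  obtain ⟨y, hy1, hy2⟩ := hstep K
  obtain ⟨b, hb, hyb⟩ := par_ne_zero (hy2 (N + K) (by omega) le_rfl)
  refine ⟨b, (ceq N).trans hy1 (ceq_mono (by omega) hyb), fun m hm => ?_⟩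
  rcases le_total m (N + K) with h1 | h1
  · rw [← par_class (ceq_mono h1 hyb) x]
    exact hy2 m hm h1
  · rw [par_eq_apply (fun c hc hbc => (hK m (by omega) b hb c hc hbc).symm)]
    exact mem_sp.1 hb

/-- The setoid attached to an open, coarsely closed set. -/
theorem exists_setoid {B : Set Y} (hB : IsOpen B) (hCL : CL B) :
    ∃ s : Setoid Y, adm s ∧ ∀ y, y ∉ B →
      ∃ n, (∀ c, (ceq n) y c → c ∉ B) ∧ ∀ z, s y z ↔ (ceq n) y z := by
  classical
  let s : Setoid Y :=
    { r := fun a b => (a ∈ B ∧ b ∈ B) ∨ ∃ n, (ceq n) a b ∧ ∀ c, (ceq n) a c → c ∉ B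
      iseqv := by
        refine ⟨fun a => ?_, ?_, ?_⟩
        · by_cases ha : a ∈ B
          · exact Or.inl ⟨ha, ha⟩
          · obtain ⟨n, hn⟩ := hCL a ha
            exact Or.inr ⟨n, (ceq n).refl a, hn⟩
        · rintro a b (⟨h1, h2⟩ | ⟨n, h1, h2⟩)
          · exact Or.inl ⟨h2, h1⟩
          · exact Or.inr ⟨n, (ceq n).symm h1, fun c hc => h2 c ((ceq n).trans h1 hc)⟩
        · rintro a b c (⟨h1, h2⟩ | ⟨n, h1, h2⟩) (⟨h3, h4⟩ | ⟨m, h3, h4⟩)
          · exact Or.inl ⟨h1, h4⟩
          · exact absurd h2 (h4 b ((ceq m).refl b))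
          · exact absurd h3 (h2 b h1)
          · right
            rcases le_total n m with h | h
            · exact ⟨n, (ceq n).trans h1 (ceq_mono h h3), h2⟩
            · refine ⟨m, (ceq m).trans (ceq_mono h h1) h3, fun d hd => h4 d ?_⟩
              exact (ceq m).trans ((ceq m).symm (ceq_mono h h1)) hd }
  have hs : ∀ a b, s a b ↔ ((a ∈ B ∧ b ∈ B) ∨ ∃ n, (ceq n) a b ∧ ∀ c, (ceq n) a c → c ∉ B) :=
    fun a b => Iff.rfl
  refine ⟨s, ?_, ?_⟩
  · intro y
    by_cases hy : y ∈ B
    · have : {z | s y z} = B := by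
        ext z
        rw [Set.mem_ofPred_eq, hs]
        constructor
        · rintro (⟨_, h⟩ | ⟨n, h1, h2⟩)
          · exact h
          · exact absurd hy (h2 y ((ceq n).refl y))
        · intro hz
          exact Or.inl ⟨hy, hz⟩
      rw [this]
      exact hB
    · have : {z | s y z} = ⋃ n : {n : ℕ // ∀ c, (ceq n) y c → c ∉ B}, {z | (ceq n.1) y z} := by
        ext z
        rw [Set.mem_ofPred_eq, hs, Set.mem_iUnion]
        constructor
        · rintro (⟨h, _⟩ | ⟨n, h1, h2⟩)
          · exact absurd h hy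
          · exact ⟨⟨n, h2⟩, h1⟩
        · rintro ⟨⟨n, h2⟩, h1⟩
          exact Or.inr ⟨n, h1, h2⟩
      rw [this]
      exact isOpen_iUnion (fun n => isOpen_ceq n.1 y)
  · intro y hy
    have hex := hCL y hy
    refine ⟨Nat.find hex, Nat.find_spec hex, fun z => ?_⟩
    rw [hs]
    constructor
    · rintro (⟨h, _⟩ | ⟨n, h1, h2⟩)
      · exact absurd h hy
      · exact ceq_mono (Nat.find_min' hex h2) h1
    · intro h
      exact Or.inr ⟨_, h, Nat.find_spec hex⟩

/-- The map `Z` is continuous for the Vietoris topology. -/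
theorem Zc (x0 : G) (U : Y → Set Y) (hU : ∀ y ∈ Z x0, U y ∈ 𝓝 y) :
    ∀ᶠ x in 𝓝 x0, (∀ y' ∈ Z x, ∃ y ∈ Z x0, y' ∈ U y) ∧ (∀ y ∈ Z x0, ∃ y' ∈ Z x, y' ∈ U y) := by
  classical
  obtain ⟨N, hN⟩ := exists_sep (sp x0)
  have hch : ∀ y, y ∈ Z x0 → ∃ (B : Set Y) (s : Setoid Y), y ∈ B ∧ B ⊆ U y ∧
      (∀ z ∈ B, (ceq N) y z) ∧ adm s ∧ ∀ z, z ∉ B →
        ∃ n, (∀ c, (ceq n) z c → c ∉ B) ∧ ∀ w, s z w ↔ (ceq n) z w := by
    intro y hy
    obtain ⟨B, hBo, hyB, hBU, hCL⟩ := exists_CL_nhd
      (Filter.inter_mem (hU y hy) ((isOpen_ceq N y).mem_nhds ((ceq N).refl y)))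
    obtain ⟨s, hs1, hs2⟩ := exists_setoid hBo hCL
    exact ⟨B, s, hyB, fun z hz => (hBU hz).1, fun z hz => (hBU hz).2, hs1, hs2⟩
  choose! B s hyB hBU hBN hadm hprop using hch
  have hev1 : ∀ᶠ x in 𝓝 x0, ∀ y ∈ Z x0, H (s y) (x + x0) :=
    (Filter.eventually_all_finite (Z_finite x0)).2 (fun y hy => coset_mem_nhds (hadm y hy) x0)
  filter_upwards [hev1, coset_mem_nhds (adm_ceq N) x0] with x hx1 hx2
  -- the first claim with the smaller sets
  have hclaim : ∀ y' ∈ Z x, ∃ y ∈ Z x0, y' ∈ B y ∧ (ceq N) y' y := by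
    intro y' hy'
    have h1 : par (ceq N) y' x0 ≠ 0 := by
      rw [← par_eq_of_H hx2 y']
      exact hy' N
    obtain ⟨y, hysp, hyy⟩ := par_ne_zero h1
    have hyZ : y ∈ Z x0 := by
      intro n
      rcases le_total n N with h | h
      · have hHn : H (ceq n) (x + x0) := H_mono (fun _ _ hab => ceq_mono h hab) hx2
        rw [← par_class (ceq_mono h hyy) x0, ← par_eq_of_H hHn y']
        exact hy' n
      · rw [par_eq_apply (fun c hc hbc => (hN n h y hysp c hc hbc).symm)]
        exact mem_sp.1 hysp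
    refine ⟨y, hyZ, ?_, hyy⟩
    by_contra hnot
    obtain ⟨n, hn1, hn2⟩ := hprop y hyZ y' hnot
    have h2 : par (ceq n) y' x0 ≠ 0 := by
      rw [← par_congr hn2 x0, ← par_eq_of_H (hx1 y hyZ) y', par_congr hn2 x]
      exact hy' n
    obtain ⟨b, hb, hyb⟩ := par_ne_zero h2
    rcases le_total n N with h | h
    · exact hn1 y (ceq_mono h hyy) (hyB y hyZ)
    · have hby : y = b := hN N le_rfl y hysp b hb
        ((ceq N).trans ((ceq N).symm hyy) (ceq_mono h hyb))
      subst hby
      exact hn1 y hyb (hyB y hyZ)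
  refine ⟨fun y' hy' => ?_, fun y hy => ?_⟩
  · obtain ⟨y, hy1, hy2, -⟩ := hclaim y' hy'
    exact ⟨y, hy1, hBU y hy1 hy2⟩
  · have h1 : par (ceq N) y x ≠ 0 := by
      rw [par_eq_of_H hx2 y]
      exact hy N
    obtain ⟨y', hyy', hy'⟩ := descent h1
    have hy'Z : y' ∈ Z x := by
      intro n
      rcases le_total n N with h | h
      · have hHn : H (ceq n) (x + x0) := H_mono (fun _ _ hab => ceq_mono h hab) hx2
        rw [← par_class (ceq_mono h hyy') x, par_eq_of_H hHn y]
        exact hy n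
      · exact hy' n h
    obtain ⟨y1, hy1, hy2, hy3⟩ := hclaim y' hy'Z
    have : y = y1 := hN N le_rfl y (Z_subset _ hy) y1 (Z_subset _ hy1)
      ((ceq N).trans hyy' hy3)
    subst this
    exact ⟨y', hy'Z, hBU y hy hy2⟩

end Pool.Agent.W651.Rect
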