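import Mathlib
import Pool.Agent.W651.RectG

set_option autoImplicit false

open Topology

namespace Pool.Agent.W651.Sub

open Pool.Agent.W651.Rect

/-- Sharing an endpoint `u`, with coarse agreement up to an order governed by `u`. -/
def Rr (y z : Y) : Prop :=
  ∃ u : M, (y.1.1 = u ∨ y.1.2 = u) ∧ (z.1.1 = u ∨ z.1.2 = u) ∧ (ceq (lam u + 1)) y z

theorem Rr_refl (y : Y) : Rr y y := ⟨y.1.1, Or.inl rfl, Or.inl rfl, (ceq _).refl y⟩

theorem Rr_symm {y z : Y} (h : Rr y z) : Rr z y := by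
  obtain ⟨u, h1, h2, h3⟩ := h
  exact ⟨u, h2, h1, (ceq _).symm h3⟩

theorem Rr_adj {y z : Y} (h : Rr y z) : Adj y z := by
  obtain ⟨u, h1, h2, -⟩ := h
  exact ⟨u, h1, h2⟩

theorem Rr_ceq {y z : Y} (h : Rr y z) {n : ℕ} (hn : n + 1 < lv y) : (ceq (n + 1)) y z := by
  obtain ⟨u, h1, -, h3⟩ := h
  have h4 := lv_fst y
  have h5 : n < lam u := by
    rcases h1 with h | h
    · rw [← h]; omega
    · rw [← h]
      unfold lv at hn
      omega
  exact ceq_mono (by omega) h3

/-- A neighbourhood of a point of order `n`. -/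
theorem nbd (y : Y) (n : ℕ) : ∃ U : Set Y, IsOpen U ∧ y ∈ U ∧
    (∀ y' ∈ U, (ceq n) y y') ∧ (y.1.1 ≠ y.1.2 → U = {y}) := by
  by_cases h : y.1.1 = y.1.2
  · refine ⟨_, isOpen_ceq n y, (ceq n).refl y, fun y' hy' => hy', fun h' => absurd h h'⟩
  · refine ⟨{y}, ?_, rfl, ?_, fun _ => rfl⟩
    · intro v hv
      exfalso
      rw [Set.mem_singleton_iff] at hv
      exact h (by rw [← hv]; rfl)
    · intro y' hy'
      rw [Set.mem_singleton_iff] at hy'
      rw [hy']

theorem ends_near {y y' : Y} {v u : M} {n : ℕ} (hy : y = vtx v) (h : (ceq n) y y')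
    (hu : y'.1.1 = u ∨ y'.1.2 = u) : eqv n v u := by
  subst hy
  rcases hu with hu | hu
  · rw [← hu]; exact h.1
  · rw [← hu]; exact h.2

theorem sep_vertex (v : M) (z : Y) : ∃ n, ∀ u, (z.1.1 = u ∨ z.1.2 = u) → eqv n v u → u = v := by
  have h : ∀ w : M, ∃ n, ∀ m, n ≤ m → eqv m v w → w = v := by
    intro w
    by_cases hw : v = w
    · exact ⟨0, fun _ _ _ => hw.symm⟩
    · obtain ⟨n, hn⟩ := exists_not_eqv hw
      exact ⟨n, fun m hm hc => absurd hc (hn m hm)⟩
  obtain ⟨a, ha⟩ := h z.1.1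
  obtain ⟨b, hb⟩ := h z.1.2
  refine ⟨max a b, fun u hu hvu => ?_⟩
  rcases hu with hu | hu
  · rw [← hu] at hvu ⊢
    exact ha _ (le_max_left _ _) hvu
  · rw [← hu] at hvu ⊢
    exact hb _ (le_max_right _ _) hvu

theorem Rr_closed_vtx (v : M) (z : Y) (h : ¬ Rr (vtx v) z) : ∃ U V : Set Y, IsOpen U ∧ IsOpen V ∧
    vtx v ∈ U ∧ z ∈ V ∧ ∀ y' ∈ U, ∀ z' ∈ V, ¬ Rr y' z' := by
  obtain ⟨n, hn⟩ := sep_vertex v z
  let k := max n (lam v + 1)
  obtain ⟨U, hU1, hU2, hU3, -⟩ := nbd (vtx v) k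
  obtain ⟨V, hV1, hV2, hV3, hV4⟩ := nbd z k
  refine ⟨U, V, hU1, hV1, hU2, hV2, ?_⟩
  rintro y' hy' z' hz' ⟨u, hu1, hu2, hu3⟩
  have h1 : eqv k v u := ends_near rfl (hU3 y' hy') hu1
  by_cases hz : z.1.1 = z.1.2
  · have hzv : z = vtx z.1.1 := Y_ext rfl hz.symm
    have h2 : eqv k z.1.1 u := ends_near hzv (hV3 z' hz') hu2
    have h3 : eqv n v z.1.1 := eqv_mono (le_max_left _ _) (eqv_trans h1 (eqv_symm h2))
    have h4 : z.1.1 = v := hn z.1.1 (Or.inl rfl) h3
    apply h
    rw [hzv, h4]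
    exact Rr_refl _
  · have hzz : z' = z := by
      have := hV4 hz
      rw [this] at hz'
      exact hz'
    rw [hzz] at hu2 hu3
    have h4 : u = v := hn u hu2 (eqv_mono (le_max_left _ _) h1)
    rw [h4] at hu2 hu3
    apply h
    refine ⟨v, Or.inl rfl, hu2, ?_⟩
    exact (ceq _).trans (ceq_mono (le_max_right _ _) (hU3 y' hy')) hu3

/-- The relation is locally constant. -/
theorem Rr_locally (y z : Y) : ∃ U V : Set Y, IsOpen U ∧ IsOpen V ∧ y ∈ U ∧ z ∈ V ∧
    ∀ y' ∈ U, ∀ z' ∈ V, (Rr y' z' ↔ Rr y z) := by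
  by_cases h : Rr y z
  · obtain ⟨u, hu1, hu2, hu3⟩ := h
    have h0 : ∀ w : M, eqv 0 u w := fun w k hk => absurd hk (Nat.not_lt_zero k)
    refine ⟨bal 0 u ∩ {y' | (ceq (lam u + 1)) y y'}, bal 0 u ∩ {z' | (ceq (lam u + 1)) z z'},
      (isOpen_bal _ _).inter (isOpen_ceq _ _), (isOpen_bal _ _).inter (isOpen_ceq _ _),
      ⟨⟨hu1, h0 _, h0 _⟩, (ceq _).refl y⟩, ⟨⟨hu2, h0 _, h0 _⟩, (ceq _).refl z⟩,
      fun y' hy' z' hz' => ?_⟩
    refine ⟨fun _ => ⟨u, hu1, hu2, hu3⟩, fun _ => ⟨u, hy'.1.1, hz'.1.1, ?_⟩⟩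
    exact (ceq _).trans ((ceq _).symm hy'.2) ((ceq _).trans hu3 hz'.2)
  · have key : ∃ U V : Set Y, IsOpen U ∧ IsOpen V ∧ y ∈ U ∧ z ∈ V ∧
        ∀ y' ∈ U, ∀ z' ∈ V, ¬ Rr y' z' := by
      by_cases hy : y.1.1 = y.1.2
      · have hyv : y = vtx y.1.1 := Y_ext rfl hy.symm
        rw [hyv] at h ⊢
        exact Rr_closed_vtx _ z h
      · by_cases hz : z.1.1 = z.1.2
        · have hzv : z = vtx z.1.1 := Y_ext rfl hz.symm
          obtain ⟨U, V, h1, h2, h3, h4, h5⟩ := Rr_closed_vtx z.1.1 y (by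
            rw [← hzv]
            exact fun hc => h (Rr_symm hc))
          rw [← hzv] at h3
          exact ⟨V, U, h2, h1, h4, h3, fun y' hy' z' hz' hc => h5 z' hz' y' hy' (Rr_symm hc)⟩
        · obtain ⟨U, hU1, hU2, -, hU4⟩ := nbd y 0
          obtain ⟨V, hV1, hV2, -, hV4⟩ := nbd z 0
          refine ⟨U, V, hU1, hV1, hU2, hV2, fun y' hy' z' hz' => ?_⟩
          rw [hU4 hy, Set.mem_singleton_iff] at hy'
          rw [hV4 hz, Set.mem_singleton_iff] at hz'
          rw [hy', hz']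
          exact h
    obtain ⟨U, V, h1, h2, h3, h4, h5⟩ := key
    exact ⟨U, V, h1, h2, h3, h4, fun y' hy' z' hz' =>
      ⟨fun hc => absurd hc (h5 y' hy' z' hz'), fun hc => absurd hc h⟩⟩

/-- Every point of `Z x'` is related to a point of `Z x`. -/
def near (x x' : G) : Prop := ∀ y' ∈ Z x', ∃ y ∈ Z x, Rr y y'

theorem near_refl (x : G) : near x x := fun y hy => ⟨y, hy, Rr_refl y⟩

theorem near_locally (x0 x0' : G) : ∀ᶠ p : G × G in 𝓝 (x0, x0'), (near p.1 p.2 ↔ near x0 x0') := by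
  classical
  choose U V hUo hVo hyU hzV hUV using Rr_locally
  have hU : ∀ y ∈ Z x0, (⋂ z ∈ Z x0', U y z) ∈ 𝓝 y := fun y _ =>
    (Filter.biInter_mem (Z_finite x0')).2 (fun z _ => (hUo y z).mem_nhds (hyU y z))
  have hV : ∀ z ∈ Z x0', (⋂ y ∈ Z x0, V y z) ∈ 𝓝 z := fun z _ =>
    (Filter.biInter_mem (Z_finite x0)).2 (fun y _ => (hVo y z).mem_nhds (hzV y z))
  have h1 := (Zc x0 (fun y => ⋂ z ∈ Z x0', U y z) hU).prod_nhds
    (Zc x0' (fun z => ⋂ y ∈ Z x0, V y z) hV)
  filter_upwards [h1]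
  rintro ⟨x, x'⟩ ⟨⟨ha, hb⟩, ⟨hc, hd⟩⟩
  show near x x' ↔ near x0 x0'
  have hkey : ∀ y ∈ Z x0, ∀ z ∈ Z x0', ∀ y', y' ∈ (⋂ z ∈ Z x0', U y z) →
      ∀ z', z' ∈ (⋂ y ∈ Z x0, V y z) → (Rr y' z' ↔ Rr y z) := by
    intro y hy z hz y' hy' z' hz'
    exact hUV y z y' (Set.mem_iInter₂.1 hy' z hz) z' (Set.mem_iInter₂.1 hz' y hy)
  constructor
  · intro h z hz
    obtain ⟨z', hz'1, hz'2⟩ := hd z hz
    obtain ⟨y', hy'1, hy'2⟩ := h z' hz'1
    obtain ⟨y, hy1, hy2⟩ := ha y' hy'1
    exact ⟨y, hy1, (hkey y hy1 z hz y' hy2 z' hz'2).1 hy'2⟩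
  · intro h z' hz'
    obtain ⟨z, hz1, hz2⟩ := hc z' hz'
    obtain ⟨y, hy1, hy2⟩ := h z hz1
    obtain ⟨y', hy'1, hy'2⟩ := hb y hy1
    exact ⟨y', hy'1, (hkey y hy1 z hz1 y' hy'2 z' hz2).2 hy2⟩

/-- The element `z` is finer than `x` for the coarse filtration. -/
def Nn (x z : G) : Prop := ∃ n, H (ceq n) z ∧ ¬ H (ceq n) x

theorem Nn_locally {x0 : G} (h0 : x0 ≠ 0) (z0 : G) :
    ∀ᶠ p : G × G in 𝓝 (x0, z0), (Nn p.1 p.2 ↔ Nn x0 z0) := by
  classical
  have hex := exists_not_H h0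
  let n := Nat.find hex
  have hn : ¬ H (ceq n) x0 := Nat.find_spec hex
  have hmin : ∀ m, ¬ H (ceq m) x0 → n ≤ m := fun m hm => Nat.find_min' hex hm
  have hmono : ∀ {m k : ℕ}, m ≤ k → ∀ {x : G}, H (ceq k) x → H (ceq m) x :=
    fun h _ hx => H_mono (fun _ _ hab => ceq_mono h hab) hx
  have hchar : ∀ x : G, H (ceq n) (x + x0) → ∀ z, (Nn x z ↔ H (ceq n) z) := by
    intro x hx z
    constructor
    · rintro ⟨m, hm1, hm2⟩
      have hnm : n ≤ m := by
        by_contra hlt
        have hlt' : m ≤ n := by omega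
        apply hm2
        have h1 : H (ceq m) (x + x0) := hmono hlt' hx
        have h2 : H (ceq m) x0 := by
          by_contra hc
          exact hlt (hmin m hc)
        have := H_add h1 h2
        rwa [add_add_self] at this
      exact hmono hnm hm1
    · intro hz
      refine ⟨n, hz, fun hc => hn ?_⟩
      have := H_add hc hx
      rwa [← add_assoc, add_self', zero_add] at this
  have h1 := (coset_mem_nhds (adm_ceq n) x0).prod_nhds (coset_mem_nhds (adm_ceq n) z0)
  filter_upwards [h1]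
  rintro ⟨x, z⟩ ⟨hx, hz⟩
  show Nn x z ↔ Nn x0 z0
  have hx' : H (ceq n) (x + x0) := hx
  have hz' : H (ceq n) (z + z0) := hz
  rw [hchar x hx' z, hchar x0 (self_mem_coset _ x0) z0]
  constructor
  · intro h
    have := H_add h hz'
    rwa [← add_assoc, add_self', zero_add] at this
  · intro h
    have := H_add hz' h
    rwa [add_add_self] at this

/-- The set of increments which the difference operation switches. -/
def Cc (x z : G) : Prop := Nn x z ∧ near x (x + z)

theorem Cc_locally {x0 : G} (h0 : x0 ≠ 0) (z0 : G) :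
    ∀ᶠ p : G × G in 𝓝 (x0, z0), (Cc p.1 p.2 ↔ Cc x0 z0) := by
  have hc : Filter.Tendsto (fun p : G × G => (p.1, p.1 + p.2)) (𝓝 (x0, z0)) (𝓝 (x0, x0 + z0)) :=
    (continuous_fst.prodMk continuous_addG).continuousAt
  filter_upwards [Nn_locally h0 z0, hc.eventually (near_locally x0 (x0 + z0))] with p hp1 hp2
  unfold Cc
  rw [hp1, hp2]

open Classical in
/-- The difference operation on the Boolean group. -/
noncomputable def T (x y : G) : G := if Cc x y ∨ Cc x (y + x) then y + x else y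

theorem T_T (x y : G) : T x (T x y) = y := by
  classical
  by_cases h : Cc x y ∨ Cc x (y + x)
  · have h1 : T x y = y + x := by unfold T; rw [if_pos h]
    have h2 : Cc x (y + x) ∨ Cc x (y + x + x) := by
      rw [add_add_self]
      exact h.symm
    rw [h1]
    unfold T
    rw [if_pos h2, add_add_self]
  · have h1 : T x y = y := by unfold T; rw [if_neg h]
    rw [h1, h1]

theorem Cc_zero {x : G} (hx : x ≠ 0) : Cc x 0 := by
  obtain ⟨n, hn⟩ := exists_not_H hx
  refine ⟨⟨n, H_zero _, hn⟩, ?_⟩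
  rw [add_zero]
  exact near_refl x

theorem T_self (x : G) : T x x = 0 := by
  classical
  unfold T
  by_cases hx : x = 0
  · subst hx
    split_ifs
    · rw [add_zero]
    · rfl
  · rw [if_pos (Or.inr (by rw [add_self']; exact Cc_zero hx)), add_self']

theorem T_zero (x : G) : T x 0 = x := by
  rw [← T_self x, T_T]

theorem T_zero_left (y : G) : T 0 y = y := by
  classical
  unfold T
  rw [add_zero]
  split_ifs <;> rfl

theorem continuous_T : Continuous (fun p : G × G => T p.1 p.2) := by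
  classical
  rw [continuous_iff_continuousAt]
  rintro ⟨x0, y0⟩
  by_cases h0 : x0 = 0
  · subst h0
    intro U hU
    rw [Filter.mem_map]
    have hU' : U ∈ 𝓝 y0 := by
      have : T 0 y0 = y0 := T_zero_left y0
      rw [← this]
      exact hU
    have hadd : ContinuousAt (fun p : G × G => p.2 + p.1) (0, y0) := by
      have : Continuous (fun p : G × G => p.2 + p.1) :=
        continuous_addG.comp (continuous_snd.prodMk continuous_fst)
      exact this.continuousAt
    have h1 : ∀ᶠ p : G × G in 𝓝 (0, y0), p.2 + p.1 ∈ U := by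
      apply hadd.eventually_mem
      show U ∈ 𝓝 (y0 + 0)
      rw [add_zero]
      exact hU'
    have h2 : ∀ᶠ p : G × G in 𝓝 (0, y0), p.2 ∈ U :=
      (continuous_snd.continuousAt (x := ((0 : G), y0))).eventually_mem hU'
    filter_upwards [h1, h2]
    rintro ⟨x, y⟩ hp1 hp2
    show T x y ∈ U
    unfold T
    split_ifs
    · exact hp1
    · exact hp2
  · have hadd : Continuous (fun p : G × G => p.2 + p.1) :=
      continuous_addG.comp (continuous_snd.prodMk continuous_fst)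
    have hc : Filter.Tendsto (fun p : G × G => (p.1, p.2 + p.1)) (𝓝 (x0, y0))
        (𝓝 (x0, y0 + x0)) := (continuous_fst.prodMk hadd).continuousAt
    have hev := (Cc_locally h0 y0).and (hc.eventually (Cc_locally h0 (y0 + x0)))
    by_cases h : Cc x0 y0 ∨ Cc x0 (y0 + x0)
    · have heq : (fun p : G × G => T p.1 p.2) =ᶠ[𝓝 (x0, y0)] (fun p => p.2 + p.1) := by
        filter_upwards [hev]
        rintro ⟨x, y⟩ ⟨hp1, hp2⟩
        show T x y = y + x
        have hp1' : Cc x y ↔ Cc x0 y0 := hp1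
        have hp2' : Cc x (y + x) ↔ Cc x0 (y0 + x0) := hp2
        unfold T
        rw [if_pos]
        rw [hp1', hp2']
        exact h
      exact ContinuousAt.congr hadd.continuousAt heq.symm
    · have heq : (fun p : G × G => T p.1 p.2) =ᶠ[𝓝 (x0, y0)] (fun p => p.2) := by
        filter_upwards [hev]
        rintro ⟨x, y⟩ ⟨hp1, hp2⟩
        show T x y = y
        have hp1' : Cc x y ↔ Cc x0 y0 := hp1
        have hp2' : Cc x (y + x) ↔ Cc x0 (y0 + x0) := hp2
        unfold T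
        rw [if_neg]
        rw [hp1', hp2']
        exact h
      exact ContinuousAt.congr continuous_snd.continuousAt heq.symm

/-- At most one coarse class of order `n` is odd. -/
def K (n : ℕ) (x : G) : Prop :=
  ∀ a b, par (ceq n) a x ≠ 0 → par (ceq n) b x ≠ 0 → (ceq n) a b

theorem K_mono {m n : ℕ} (h : m ≤ n) {x : G} (hx : K n x) : K m x := by
  intro a b ha hb
  obtain ⟨a', ha1, ha2⟩ := par_descent (s := ceq n) (s' := ceq m)
    (fun _ _ hab => ceq_mono h hab) ha
  obtain ⟨b', hb1, hb2⟩ := par_descent (s := ceq n) (s' := ceq m)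
    (fun _ _ hab => ceq_mono h hab) hb
  exact (ceq m).trans ha1 ((ceq m).trans (ceq_mono h (hx a' b' ha2 hb2)) ((ceq m).symm hb1))

theorem K_congr {n : ℕ} {x y : G} (h : H (ceq n) (x + y)) (hx : K n x) : K n y := by
  intro a b ha hb
  rw [← par_eq_of_H h] at ha hb
  exact hx a b ha hb

theorem K_of_H {n : ℕ} {x : G} (h : H (ceq n) x) : K n x := fun a _ ha _ => absurd (h a) ha

theorem par_zero_eq {n : ℕ} {x : G} (hx : K n x) {a : Y} (ha : par (ceq n) a x ≠ 0) (b : Y) :
    par (ceq 0) b x ≠ 0 := by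
  classical
  let π : Quotient (ceq n) → Quotient (ceq 0) :=
    Quotient.map' id (fun _ _ hab => ceq_mono (Nat.zero_le n) hab)
  have hcomp : pj (ceq 0) x = Finsupp.mapDomain π (pj (ceq n) x) := by
    show Finsupp.mapDomain (Quotient.mk (ceq 0)) (show Y →₀ ZMod 2 from x) =
      Finsupp.mapDomain π (Finsupp.mapDomain (Quotient.mk (ceq n)) (show Y →₀ ZMod 2 from x))
    rw [← Finsupp.mapDomain_comp]
    rfl
  have hs : pj (ceq n) x = Finsupp.single (Quotient.mk (ceq n) a) (par (ceq n) a x) := by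
    ext q
    obtain ⟨c, rfl⟩ := Quotient.exists_rep q
    rw [Finsupp.single_apply]
    by_cases h : Quotient.mk (ceq n) a = Quotient.mk (ceq n) c
    · rw [if_pos h, ← h]
      rfl
    · rw [if_neg h]
      by_contra hne
      have hne' : par (ceq n) c x ≠ 0 := hne
      exact h (Quotient.sound (hx a c ha hne'))
  have h1 : par (ceq 0) b x = par (ceq n) a x := by
    show (pj (ceq 0) x) (Quotient.mk (ceq 0) b) = _
    rw [hcomp, hs, Finsupp.mapDomain_single, Finsupp.single_apply, if_pos]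
    exact Quotient.sound (ceq_zero a b)
  rw [h1]
  exact ha

theorem H_of_K {n : ℕ} {x : G} (hx : K n x) (h0 : H (ceq 0) x) : H (ceq n) x := by
  intro a
  by_contra ha
  exact par_zero_eq hx ha a (h0 a)

/-- The decreasing sequence of neighbourhoods of zero. -/
def W (j : ℕ) : Set G := {x | (∀ y ∈ Z x, j < lv y) ∧ K j x}

theorem W_mono {i j : ℕ} (h : i ≤ j) : W j ⊆ W i := fun _ hx =>
  ⟨fun y hy => lt_of_le_of_lt h (hx.1 y hy), K_mono h hx.2⟩

theorem W_of_H {x : G} {j : ℕ} (h : H (ceq j) x) : x ∈ W j := by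
  refine ⟨fun y hy => ?_, K_of_H h⟩
  rw [Z_even (H_ceq_zero h)] at hy
  exact absurd hy (Set.notMem_empty y)

theorem zero_mem_W (j : ℕ) : (0 : G) ∈ W j := W_of_H (H_zero _)

theorem isOpen_W (j : ℕ) : IsOpen (W j) := by
  rw [isOpen_iff_mem_nhds]
  intro x0 hx0
  filter_upwards [Zc x0 (fun _ => {y | j < lv y})
    (fun y hy => (isOpen_lv j).mem_nhds (hx0.1 y hy)), coset_mem_nhds (adm_ceq j) x0]
    with x hx hx'
  refine ⟨fun y hy => ?_, ?_⟩
  · obtain ⟨y1, -, hy2⟩ := hx.1 y hy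
    exact hy2
  · rw [add_comm] at hx'
    exact K_congr hx' hx0.2

theorem sg_mem_W {y : Y} {j : ℕ} (h : j < lv y) : sg y ∈ W j := by
  classical
  have hp : ∀ a, par (ceq j) a (sg y) ≠ 0 → (ceq j) a y := by
    intro a ha
    obtain ⟨b, hb, hab⟩ := par_ne_zero ha
    have hby : b = y := by
      have h1 : sp (sg y) = {y} := by
        unfold sp sg
        exact Finsupp.support_single y (by decide)
      rw [h1, Finset.mem_singleton] at hb
      exact hb
    rw [hby] at hab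
    exact hab
  refine ⟨fun z hz => ?_, fun a b ha hb => (ceq j).trans (hp a ha) ((ceq j).symm (hp b hb))⟩
  rw [Z_sg, Set.mem_singleton_iff] at hz
  rw [hz]
  exact h

theorem eq_zero_of_mem_W {x : G} (h : ∀ j, x ∈ W j) : x = 0 := by
  classical
  by_contra hx
  obtain ⟨N, hN⟩ := exists_sep (sp x)
  have hne : (show Y →₀ ZMod 2 from x) ≠ 0 := hx
  obtain ⟨a, ha⟩ := Finsupp.support_nonempty_iff.2 hne
  have hpar : ∀ b ∈ sp x, par (ceq N) b x ≠ 0 := by
    intro b hb
    rw [par_eq_apply (fun c hc hbc => (hN N le_rfl b hb c hc hbc).symm)]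
    exact mem_sp.1 hb
  have huniq : ∀ b ∈ sp x, b = a := by
    intro b hb
    exact hN N le_rfl b hb a ha ((h N).2 b a (hpar b hb) (hpar a ha))
  have haZ : a ∈ Z x := by
    intro n
    rw [par_eq_apply (fun c hc _ => huniq c hc)]
    exact mem_sp.1 ha
  exact lt_irrefl _ ((h (lv a)).1 a haZ)

theorem Z_nonempty {x : G} {a : Y} (h : par (ceq 0) a x ≠ 0) : ∃ y, y ∈ Z x := by
  obtain ⟨y, -, hy⟩ := descent h
  exact ⟨y, fun n => hy n (Nat.zero_le n)⟩

theorem zmod2_sum {a b : ZMod 2} (ha : a ≠ 0) (hb : b ≠ 0) : a + b = 0 := by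
  revert a b
  decide

theorem T_W {j : ℕ} {x y : G} (hx : x ∈ W (j + 1)) (hy : y ∈ W (j + 1)) : T x y ∈ W j := by
  classical
  unfold T
  by_cases h : Cc x y ∨ Cc x (y + x)
  · rw [if_pos h]
    rcases h with h | h
    · obtain ⟨⟨n, hn, -⟩, hnear⟩ := h
      have hyH : H (ceq (j + 1)) y := H_of_K hy.2 (H_ceq_zero hn)
      refine ⟨fun y' hy' => ?_, ?_⟩
      · rw [add_comm] at hy'
        obtain ⟨y1, hy1, hadj⟩ := hnear y' hy'
        exact Adj_lv (Rr_adj hadj) (hx.1 y1 hy1)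
      · apply K_mono (Nat.le_succ j)
        apply K_congr (x := x) _ hx.2
        rw [add_comm y x, ← add_assoc, add_self', zero_add]
        exact hyH
    · obtain ⟨⟨n, hn, -⟩, hnear⟩ := h
      have heven : H (ceq 0) (y + x) := H_ceq_zero hn
      have hxy : x + (y + x) = y := by
        rw [add_comm y x, ← add_assoc, add_self', zero_add]
      rw [hxy] at hnear
      apply W_of_H
      refine H_mono (s := ceq (j + 1)) (fun _ _ hab => ceq_mono (Nat.le_succ j) hab) ?_
      by_cases hxe : H (ceq 0) x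
      · have hye : H (ceq 0) y := by
          have := H_add heven hxe
          rwa [add_add_self] at this
        exact H_add (H_of_K hy.2 hye) (H_of_K hx.2 hxe)
      · have hyo : ∃ a, par (ceq 0) a y ≠ 0 := by
          by_contra hcon
          push Not at hcon
          apply hxe
          have := H_add hcon heven
          rwa [← add_assoc, add_self', zero_add] at this
        obtain ⟨a, ha⟩ := hyo
        obtain ⟨y', hy'⟩ := Z_nonempty ha
        obtain ⟨y1, hy1, hR⟩ := hnear y' hy'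
        have hc : (ceq (j + 1)) y1 y' := Rr_ceq hR (hx.1 y1 hy1)
        intro c
        rw [par_add]
        by_cases hcy : par (ceq (j + 1)) c y = 0
        · by_cases hcx : par (ceq (j + 1)) c x = 0
          · rw [hcy, hcx, add_zero]
          · exfalso
            have h1 : (ceq (j + 1)) c y1 := hx.2 c y1 hcx (hy1 (j + 1))
            have h2 : (ceq (j + 1)) c y' := (ceq _).trans h1 hc
            rw [par_class h2] at hcy
            exact hy' (j + 1) hcy
        · have h1 : (ceq (j + 1)) c y' := hy.2 c y' hcy (hy' (j + 1))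
          have h2 : (ceq (j + 1)) c y1 := (ceq _).trans h1 ((ceq _).symm hc)
          have hcx : par (ceq (j + 1)) c x ≠ 0 := by
            rw [par_class h2]
            exact hy1 (j + 1)
          exact zmod2_sum hcy hcx
  · rw [if_neg h]
    exact W_mono (Nat.le_succ j) hy

end Pool.Agent.W651.Sub
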