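import Mathlib
import Pool.Agent.W651.SubT

set_option autoImplicit false

open Topology

namespace Pool.Agent.W651.Sub

open Pool.Agent.W651.Rect

/-- Finitely supported families in the Boolean group, indexed by the reals. -/
def A : Type := ℝ →₀ G

/-- The coordinates of an element. -/
noncomputable def co (x : A) (i : ℝ) : G := (show ℝ →₀ G from x) i

theorem A_ext {x y : A} (h : ∀ i, co x i = co y i) : x = y := Finsupp.ext h

/-- Boxes. -/
def box (O : ℝ → Set G) : Set A := {x | ∀ i, co x i ∈ O i}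

/-- Admissible families of sides. -/
def good (O : ℝ → Set G) : Prop :=
  (∀ i, IsOpen (O i)) ∧ ∃ (n : ℕ) (F : Finset ℝ), ∀ i, i ∉ F → W n ⊆ O i

theorem good_inter {O P : ℝ → Set G} (hO : good O) (hP : good P) : good (fun i => O i ∩ P i) := by
  classical
  obtain ⟨hO1, n, F, hn⟩ := hO
  obtain ⟨hP1, m, F', hm⟩ := hP
  refine ⟨fun i => (hO1 i).inter (hP1 i), max n m, F ∪ F', fun i hi => ?_⟩
  rw [Finset.mem_union, not_or] at hi
  exact Set.subset_inter ((W_mono (le_max_left n m)).trans (hn i hi.1))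
    ((W_mono (le_max_right n m)).trans (hm i hi.2))

instance : TopologicalSpace A where
  IsOpen U := ∀ x, x ∈ U → ∃ O, good O ∧ x ∈ box O ∧ box O ⊆ U
  isOpen_univ := fun _ _ => ⟨fun _ => Set.univ, ⟨fun _ => isOpen_univ, 0, ∅, fun _ _ =>
    Set.subset_univ _⟩, fun _ => Set.mem_univ _, Set.subset_univ _⟩
  isOpen_inter := by
    intro U V hU hV x hx
    obtain ⟨O, hO, hxO, hOU⟩ := hU x hx.1
    obtain ⟨P, hP, hxP, hPV⟩ := hV x hx.2
    exact ⟨_, good_inter hO hP, fun i => ⟨hxO i, hxP i⟩, fun y hy =>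
      ⟨hOU (fun i => (hy i).1), hPV (fun i => (hy i).2)⟩⟩
  isOpen_sUnion := by
    intro S hS x hx
    obtain ⟨U, hU, hxU⟩ := hx
    obtain ⟨O, hO, hxO, hOU⟩ := hS U hU x hxU
    exact ⟨O, hO, hxO, hOU.trans (Set.subset_sUnion_of_mem hU)⟩

theorem isOpen_A {U : Set A} : IsOpen U ↔ ∀ x, x ∈ U → ∃ O, good O ∧ x ∈ box O ∧ box O ⊆ U :=
  Iff.rfl

theorem isOpen_box {O : ℝ → Set G} (hO : good O) : IsOpen (box O) := fun _ hx =>
  ⟨O, hO, hx, subset_rfl⟩

theorem mem_nhds_A {x : A} {U : Set A} : U ∈ 𝓝 x ↔ ∃ O, good O ∧ x ∈ box O ∧ box O ⊆ U := by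
  constructor
  · intro h
    obtain ⟨V, hVU, hV, hxV⟩ := mem_nhds_iff.1 h
    obtain ⟨O, h1, h2, h3⟩ := hV x hxV
    exact ⟨O, h1, h2, h3.trans hVU⟩
  · rintro ⟨O, h1, h2, h3⟩
    exact Filter.mem_of_superset ((isOpen_box h1).mem_nhds h2) h3

theorem exists_bound (x : A) : ∃ F : Finset ℝ, ∀ i, i ∉ F → co x i = 0 := by
  classical
  exact ⟨Finsupp.support (show ℝ →₀ G from x), fun i hi => Finsupp.notMem_support_iff.1 hi⟩

open Classical in
/-- The family with one prescribed side. -/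
noncomputable def one (i : ℝ) (S : Set G) (j : ℝ) : Set G := if j = i then S else Set.univ

theorem one_same (i : ℝ) (S : Set G) : one i S i = S := if_pos rfl

theorem one_ne {i j : ℝ} (S : Set G) (h : j ≠ i) : one i S j = Set.univ := if_neg h

theorem good_one (i : ℝ) {S : Set G} (hS : IsOpen S) : good (one i S) := by
  refine ⟨fun j => ?_, 0, {i}, fun j hj => ?_⟩
  · by_cases hj : j = i
    · rw [hj, one_same]
      exact hS
    · rw [one_ne S hj]
      exact isOpen_univ
  · rw [Finset.mem_singleton] at hj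
    rw [one_ne S hj]
    exact Set.subset_univ _

instance : T1Space A := by
  classical
  rw [t1Space_iff_exists_open]
  intro x y hxy
  have hex : ∃ i, co x i ≠ co y i := by
    by_contra h
    push Not at h
    exact hxy (A_ext h)
  obtain ⟨i, hi⟩ := hex
  refine ⟨box (one i {co y i}ᶜ), isOpen_box (good_one i isOpen_compl_singleton),
    fun j => ?_, fun h => ?_⟩
  · by_cases hj : j = i
    · rw [hj, one_same]
      exact hi
    · rw [one_ne _ hj]
      exact Set.mem_univ _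
  · have h2 := h i
    rw [one_same] at h2
    exact h2 rfl

open Classical in
/-- Keeping the sides inside a finite set only. -/
noncomputable def cut (F : Finset ℝ) (n : ℕ) (P : ℝ → Set G) (i : ℝ) : Set G :=
  if i ∈ F then P i else W n

theorem cut_mem {F : Finset ℝ} {n : ℕ} {P : ℝ → Set G} {i : ℝ} (h : i ∈ F) :
    cut F n P i = P i := if_pos h

theorem cut_notMem {F : Finset ℝ} {n : ℕ} {P : ℝ → Set G} {i : ℝ} (h : i ∉ F) :
    cut F n P i = W n := if_neg h

theorem good_cut (F : Finset ℝ) (n : ℕ) {P : ℝ → Set G} (hP : ∀ i, IsOpen (P i)) :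
    good (cut F n P) := by
  refine ⟨fun i => ?_, n, F, fun i hi => ?_⟩
  · by_cases h : i ∈ F
    · rw [cut_mem h]; exact hP i
    · rw [cut_notMem h]; exact isOpen_W _
  · rw [cut_notMem hi]

theorem mem_cut {F : Finset ℝ} {n : ℕ} {P : ℝ → Set G} {x : A} (hx : ∀ i, co x i ∈ P i)
    (hk : ∀ i, i ∉ F → co x i = 0) : x ∈ box (cut F n P) := by
  intro i
  by_cases h : i ∈ F
  · rw [cut_mem h]; exact hx i
  · rw [cut_notMem h, hk i h]
    exact zero_mem_W _

/-- The difference operation, coordinatewise. -/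
noncomputable def D (x y : A) : A :=
  (Finsupp.zipWith T (T_zero 0) (show ℝ →₀ G from x) (show ℝ →₀ G from y) : ℝ →₀ G)

theorem co_D (x y : A) (i : ℝ) : co (D x y) i = T (co x i) (co y i) := rfl

/-- The origin. -/
noncomputable def o : A := (0 : ℝ →₀ G)

theorem co_o (i : ℝ) : co o i = 0 := rfl

theorem D_D (x y : A) : D x (D x y) = y := A_ext fun i => by
  rw [co_D, co_D, T_T]

theorem D_self (x : A) : D x x = o := A_ext fun i => by
  rw [co_D, T_self, co_o]

theorem D_o (x : A) : D x o = x := A_ext fun i => by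
  rw [co_D, co_o, T_zero]

theorem continuous_D : Continuous (fun p : A × A => D p.1 p.2) := by
  classical
  rw [continuous_iff_continuousAt]
  rintro ⟨x0, y0⟩ U hU
  rw [Filter.mem_map]
  obtain ⟨O, ⟨hO1, n, F, hn⟩, hO2, hO3⟩ := mem_nhds_A.1 hU
  obtain ⟨Fx, hFx⟩ := exists_bound x0
  obtain ⟨Fy, hFy⟩ := exists_bound y0
  have hloc : ∀ i, ∃ P Q : Set G, IsOpen P ∧ IsOpen Q ∧ co x0 i ∈ P ∧ co y0 i ∈ Q ∧
      ∀ a ∈ P, ∀ b ∈ Q, T a b ∈ O i := by
    intro i
    have h1 : (fun p : G × G => T p.1 p.2) ⁻¹' (O i) ∈ 𝓝 (co x0 i, co y0 i) :=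
      (continuous_T.continuousAt).preimage_mem_nhds ((hO1 i).mem_nhds (hO2 i))
    obtain ⟨P, Q, hP, hxP, hQ, hyQ, hPQ⟩ := mem_nhds_prod_iff'.1 h1
    exact ⟨P, Q, hP, hQ, hxP, hyQ, fun a ha b hb => hPQ (Set.mk_mem_prod ha hb)⟩
  choose P Q hP hQ hxP hyQ hPQ using hloc
  let F' := F ∪ (Fx ∪ Fy)
  have hF : ∀ i, i ∉ F' → i ∉ F := fun i hi h => hi (Finset.mem_union_left _ h)
  have hF1 : ∀ i, i ∉ F' → i ∉ Fx := fun i hi h =>
    hi (Finset.mem_union_right _ (Finset.mem_union_left _ h))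
  have hF2 : ∀ i, i ∉ F' → i ∉ Fy := fun i hi h =>
    hi (Finset.mem_union_right _ (Finset.mem_union_right _ h))
  have gP : good (cut F' (n + 1) P) := good_cut F' (n + 1) hP
  have gQ : good (cut F' (n + 1) Q) := good_cut F' (n + 1) hQ
  have hx0 : x0 ∈ box (cut F' (n + 1) P) := mem_cut hxP (fun i hi => hFx i (hF1 i hi))
  have hy0 : y0 ∈ box (cut F' (n + 1) Q) := mem_cut hyQ (fun i hi => hFy i (hF2 i hi))
  refine Filter.mem_of_superset (prod_mem_nhds ((isOpen_box gP).mem_nhds hx0)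
    ((isOpen_box gQ).mem_nhds hy0)) ?_
  rintro ⟨x, y⟩ ⟨hx, hy⟩
  apply hO3
  intro i
  show co (D x y) i ∈ O i
  rw [co_D]
  have hxi : co x i ∈ cut F' (n + 1) P i := hx i
  have hyi : co y i ∈ cut F' (n + 1) Q i := hy i
  by_cases h : i ∈ F'
  · rw [cut_mem h] at hxi hyi
    exact hPQ i _ hxi _ hyi
  · rw [cut_notMem h] at hxi hyi
    exact hn i (hF i h) (T_W hxi hyi)

theorem continuous_pair : Continuous (fun p : A × A => (p.1, D p.1 p.2)) :=
  continuous_fst.prodMk continuous_D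

theorem pair_pair (p : A × A) : (p.1, D p.1 (D p.1 p.2)) = p := by
  rw [D_D]

/-- The rectification. -/
noncomputable def phi : (A × A) ≃ₜ (A × A) where
  toFun p := (p.1, D p.1 p.2)
  invFun p := (p.1, D p.1 p.2)
  left_inv := pair_pair
  right_inv := pair_pair
  continuous_toFun := continuous_pair
  continuous_invFun := continuous_pair

theorem phi_apply (p : A × A) : phi p = (p.1, D p.1 p.2) := rfl

theorem tendsto_D (x y : A) : Filter.Tendsto (fun p : A × A => D p.1 p.2) (𝓝 (x, y)) (𝓝 (D x y)) :=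
  continuous_D.continuousAt

theorem exists_prod_nhd (x y : A) {N : Set A} (hN : N ∈ 𝓝 (D x y)) :
    ∃ U V : Set A, IsOpen U ∧ x ∈ U ∧ IsOpen V ∧ y ∈ V ∧ ∀ a ∈ U, ∀ b ∈ V, D a b ∈ N := by
  obtain ⟨U, V, hU, hxU, hV, hyV, hUV⟩ := mem_nhds_prod_iff'.1 (tendsto_D x y hN)
  exact ⟨U, V, hU, hxU, hV, hyV, fun a ha b hb => hUV (Set.mk_mem_prod ha hb)⟩

theorem closure_aux (x : A) (N : Set A) (hN : N ∈ 𝓝 x) : ∃ t ∈ 𝓝 x, IsClosed t ∧ t ⊆ N := by
  obtain ⟨U, V, hU, hxU, hV, hoV, hUV⟩ := exists_prod_nhd x o (by rw [D_o]; exact hN)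
  refine ⟨closure U, Filter.mem_of_superset (hU.mem_nhds hxU) subset_closure, isClosed_closure, ?_⟩
  intro z hz
  obtain ⟨P, Q, hP, hzP, hQ, hzQ, hPQ⟩ := exists_prod_nhd z z (N := V)
    (by rw [D_self]; exact hV.mem_nhds hoV)
  obtain ⟨u, hu1, hu2⟩ := mem_closure_iff_nhds.1 hz _ (hP.mem_nhds hzP)
  have h2 : D u (D u z) ∈ N := hUV u hu2 _ (hPQ u hu1 z hzQ)
  rwa [D_D] at h2

instance : RegularSpace A := RegularSpace.of_exists_mem_nhds_isClosed_subset closure_aux

theorem t3A : T3Space A := inferInstance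

theorem good_W (n : ℕ) : good (fun _ => W n) := ⟨fun _ => isOpen_W n, n, ∅, fun _ _ => subset_rfl⟩

theorem eq_o_of_mem {x : A} (h : ∀ n, x ∈ box (fun _ => W n)) : x = o :=
  A_ext fun i => by
    rw [co_o]
    exact eq_zero_of_mem_W (fun n => h n i)

/-- Points are intersections of countably many open sets. -/
theorem gdelta (x : A) : IsGδ ({x} : Set A) := by
  have hc : Continuous (fun y : A => D x y) := continuous_D.comp (continuous_const.prodMk continuous_id)
  have h1 : ({x} : Set A) = ⋂ n : ℕ, (fun y : A => D x y) ⁻¹' (box (fun _ => W n)) := by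
    ext y
    rw [Set.mem_singleton_iff, Set.mem_iInter]
    constructor
    · intro hy n
      show D x y ∈ box (fun _ => W n)
      rw [hy, D_self]
      intro i
      rw [co_o]
      exact zero_mem_W n
    · intro hy
      have h2 : D x y = o := eq_o_of_mem hy
      rw [← D_D x y, h2, D_o]
  rw [h1]
  exact IsGδ.iInter_of_isOpen (fun n => (isOpen_box (good_W n)).preimage hc)

/-- The embedding of `Y` into the coordinate of index `i`. -/
noncomputable def iot (i : ℝ) (y : Y) : A := (Finsupp.single i (sg y) : ℝ →₀ G)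

theorem co_iot (n : ℝ) (y : Y) (i : ℝ) : co (iot n y) i = if n = i then sg y else 0 := by
  classical
  show (Finsupp.single n (sg y) : ℝ →₀ G) i = _
  rw [Finsupp.single_apply]

theorem continuous_iot (n : ℝ) : Continuous (iot n) := by
  rw [continuous_iff_continuousAt]
  intro y0 U hU
  rw [Filter.mem_map]
  obtain ⟨O, ⟨hO1, m, F, hm⟩, hO2, hO3⟩ := mem_nhds_A.1 hU
  have h1 : sg ⁻¹' (O n) ∈ 𝓝 y0 := by
    apply continuous_sg.continuousAt.preimage_mem_nhds
    apply (hO1 n).mem_nhds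
    have := hO2 n
    rwa [co_iot, if_pos rfl] at this
  refine Filter.mem_of_superset h1 ?_
  intro y hy
  apply hO3
  intro i
  rw [co_iot]
  have h2 := hO2 i
  rw [co_iot] at h2
  by_cases h : n = i
  · rw [if_pos h]
    rw [← h]
    exact hy
  · rw [if_neg h] at h2 ⊢
    exact h2

/-- High points of a far coordinate lie in a given box around the origin. -/
theorem iot_mem_box {O : ℝ → Set G} (hO2 : o ∈ box O) {n : ℕ} {F : Finset ℝ}
    (hn : ∀ i, i ∉ F → W n ⊆ O i) {i : ℝ} (hi : i ∉ F) {y : Y} (hy : n < lv y) :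
    iot i y ∈ box O := by
  intro k
  rw [co_iot]
  by_cases h : i = k
  · rw [if_pos h, ← h]
    exact hn i hi (sg_mem_W hy)
  · rw [if_neg h]
    have := hO2 k
    rwa [co_o] at this

theorem not_T35 : ¬ T35Space A := by
  intro hA
  have hK : IsClosed (box (fun _ => W 0))ᶜ := (isOpen_box (good_W 0)).isClosed_compl
  have ho : o ∉ (box (fun _ => W 0))ᶜ := by
    intro h
    exact h (fun i => by rw [co_o]; exact zero_mem_W 0)
  obtain ⟨f, hf, hf0, hf1⟩ := CompletelyRegularSpace.completely_regular o _ hK ho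
  let g : A → ℝ := fun x => (f x : ℝ)
  have hg : Continuous g := continuous_subtype_val.comp hf
  have hg0 : g o = 0 := by show ((f o : unitInterval) : ℝ) = 0; rw [hf0]; rfl
  have hg1 : ∀ x, x ∉ box (fun _ => W 0) → g x = 1 := by
    intro x hx
    show ((f x : unitInterval) : ℝ) = 1
    rw [hf1 hx]
    rfl
  have hopen : IsOpen {x | g x < 1 / 2} := isOpen_lt hg continuous_const
  obtain ⟨O, ⟨hO1, n, F, hn⟩, hO2, hO3⟩ :=
    hopen o (by show g o < 1 / 2; rw [hg0]; norm_num)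
  obtain ⟨i, hi⟩ := Infinite.exists_notMem_finset F
  obtain ⟨v, -, hv1, hv2⟩ := linking (fun y => g (iot i y)) (hg.comp (continuous_iot i)) (by
    intro y hy
    apply hg1
    intro h
    have h1 := h i
    rw [co_iot, if_pos rfl] at h1
    have h2 : 0 < lv y := h1.1 y (by rw [Z_sg]; rfl)
    omega) (n + 1) (1 / 2) (by norm_num) (fun _ => 0) 0
  have hmem : iot i (vtx v) ∈ box O := iot_mem_box hO2 hn hi (by
    show n < lam v
    omega)
  have h3 : g (iot i (vtx v)) < 1 / 2 := hO3 hmem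
  exact lt_asymm h3 hv2

/-- The local form of the linking lemma. -/
theorem linking_local (f : Y → ℝ) (hf : Continuous f) (s0 : M) (n0 : ℕ) (c0 : ℝ)
    (h0 : ∀ t n, n0 ≤ n → eqv n0 s0 t → ∃ v : M, eqv n t v ∧ lam v = 0 ∧ c0 < f (vtx v)) (j : ℕ) :
    ∀ c : ℝ, c < c0 → ∀ t n, n0 ≤ n → eqv n0 s0 t →
      ∃ v : M, eqv n t v ∧ lam v = j ∧ c < f (vtx v) := by
  induction j with
  | zero =>
    intro c hc t n hn ht
    obtain ⟨v, h1, h2, h3⟩ := h0 t n hn ht
    exact ⟨v, h1, h2, hc.trans h3⟩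
  | succ j ih =>
    intro c hc s m hm hs
    obtain ⟨c', hc1, hc2⟩ := exists_between hc
    have hopen : ∀ v : M, c' < f (vtx v) → ∃ n, bal n v ⊆ {y | c' < f y} := fun v hv =>
      (isOpen_lt continuous_const hf : IsOpen {y | c' < f y}) v hv
    choose! N hN using hopen
    obtain ⟨w, hw1, hw2, hw3⟩ := key (j + 1) s m
      (fun k => {w | eqv n0 s0 w → ∃ v : M, lam v = j ∧ c' < f (vtx v) ∧
        eqv (max (N v) k) v w}) (by
        intro k t n
        by_cases ht : eqv n0 s0 t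
        · obtain ⟨v, hv1, hv2, hv3⟩ := ih c' hc2 t (max n n0) (le_max_right _ _) ht
          refine ⟨v, max n (max (N v) k), le_max_left _ _, eqv_mono (le_max_left _ _) hv1,
            fun w hw _ => ⟨v, hv2, hv3, ?_⟩⟩
          exact eqv_mono (le_max_right _ _) hw
        · refine ⟨t, max n n0, le_max_left _ _, eqv_refl _ _, fun w hw hsw => ?_⟩
          exfalso
          apply ht
          exact eqv_trans hsw (eqv_symm (eqv_mono (le_max_right _ _) hw)))
    have hsw : eqv n0 s0 w := eqv_trans hs (eqv_mono hm hw1)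
    refine ⟨w, hw1, hw3, ?_⟩
    by_contra hcon
    have hlt : f (vtx w) < c' := lt_of_le_of_lt (not_lt.1 hcon) hc1
    obtain ⟨n, hn⟩ := (isOpen_lt hf continuous_const : IsOpen {y | f y < c'}) w hlt
    obtain ⟨v, hv1, hv2, hv3⟩ := hw2 n hsw
    let e : Y := ⟨(v, w), Or.inr (by show lam w = lam v + 1; rw [hw3, hv1])⟩
    have he1 : e ∈ bal n w :=
      ⟨Or.inr rfl, eqv_symm (eqv_mono (le_max_right _ _) hv3), eqv_refl _ _⟩
    have he2 : e ∈ bal (N v) v :=
      ⟨Or.inl rfl, eqv_refl _ _, eqv_mono (le_max_left _ _) hv3⟩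
    have h1 : f e < c' := hn he1
    have h2 : c' < f e := hN v hv2 he2
    exact lt_asymm h1 h2

/-- A continuous function positive at level zero is bounded below at points of every level. -/
theorem positive_spread (f : Y → ℝ) (hf : Continuous f) (h0 : ∀ v : M, lam v = 0 → 0 < f (vtx v)) :
    ∃ ε : ℝ, 0 < ε ∧ ∀ j : ℕ, ∃ v : M, lam v = j ∧ ε < f (vtx v) := by
  have hclaim : ∃ (m : ℕ) (s0 : M) (n0 : ℕ), ∀ t n, n0 ≤ n → eqv n0 s0 t →
      ∃ v : M, eqv n t v ∧ lam v = 0 ∧ 1 / ((m : ℝ) + 1) < f (vtx v) := by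
    by_contra hcon
    push Not at hcon
    obtain ⟨x, -, hx2, hx3⟩ := key 0 (fun _ => 0) 0
      (fun m => {v | lam v = 0 → f (vtx v) ≤ 1 / ((m : ℝ) + 1)}) (by
        intro m t n
        obtain ⟨t', n', h1, h2, h3⟩ := hcon m t n
        exact ⟨t', n', h1, h2, fun w hw hlw => h3 w hw hlw⟩)
    have h1 := h0 x hx3
    obtain ⟨m, hm⟩ := exists_nat_one_div_lt h1
    exact absurd (hx2 m hx3) (not_le.2 hm)
  obtain ⟨m, s0, n0, hm⟩ := hclaim
  have hpos : (0 : ℝ) < 1 / ((m : ℝ) + 1) := by positivity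
  refine ⟨1 / ((m : ℝ) + 1) / 2, by positivity, fun j => ?_⟩
  obtain ⟨v, -, hv1, hv2⟩ := linking_local f hf s0 n0 _ hm j (1 / ((m : ℝ) + 1) / 2)
    (by linarith) s0 n0 le_rfl (eqv_refl _ _)
  exact ⟨v, hv1, hv2⟩

theorem iot_ne (i : ℝ) (y : Y) : iot i y ≠ o := by
  intro h
  have h1 : co (iot i y) i = co o i := by rw [h]
  rw [co_iot, if_pos rfl, co_o] at h1
  have h2 := Z_sg y
  rw [h1, Z_even (H_zero _)] at h2
  exact absurd h2 (Set.singleton_ne_empty y).symm

/-- No continuous function vanishes at the origin only. -/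
theorem no_zero_function (f : A → ℝ) (hf : Continuous f) (h0 : f o = 0) :
    ∃ x, x ≠ o ∧ f x ≤ 0 := by
  by_contra hcon
  push Not at hcon
  have hopen : ∀ k : ℕ, ∃ (n : ℕ) (F : Finset ℝ), ∀ i, i ∉ F → ∀ y : Y, n < lv y →
      f (iot i y) < 1 / ((k : ℝ) + 1) := by
    intro k
    have h1 : IsOpen {x | f x < 1 / ((k : ℝ) + 1)} := isOpen_lt hf continuous_const
    obtain ⟨O, ⟨hO1, n, F, hn⟩, hO2, hO3⟩ := h1 o (by
      show f o < 1 / ((k : ℝ) + 1)
      rw [h0]
      positivity)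
    exact ⟨n, F, fun i hi y hy => hO3 (iot_mem_box hO2 hn hi hy)⟩
  choose n F hF using hopen
  have hcount : (⋃ k, (F k : Set ℝ)).Countable :=
    Set.countable_iUnion (fun k => (F k).finite_toSet.countable)
  have hex : ∃ i, i ∉ ⋃ k, (F k : Set ℝ) := by
    by_contra hall
    push Not at hall
    have huniv : (⋃ k, (F k : Set ℝ)) = Set.univ := Set.eq_univ_of_forall hall
    rw [huniv] at hcount
    exact Cardinal.not_countable_real hcount
  obtain ⟨i, hi⟩ := hex
  have hi' : ∀ k, i ∉ F k := fun k hk => hi (Set.mem_iUnion.2 ⟨k, hk⟩)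
  obtain ⟨ε, hε, hspread⟩ := positive_spread (fun y => f (iot i y)) (hf.comp (continuous_iot i))
    (fun v _ => hcon _ (iot_ne i _))
  obtain ⟨k, hk⟩ := exists_nat_one_div_lt hε
  obtain ⟨v, hv1, hv2⟩ := hspread (n k + 1)
  have h1 := hF k i (hi' k) (vtx v) (by show n k < lam v; omega)
  exact lt_asymm (h1.trans hk) hv2

/-- No coarser topology is metrizable. -/
theorem not_submetrizable (t : TopologicalSpace A)
    (ht : instTopologicalSpaceA ≤ t) :
    ¬ @TopologicalSpace.MetrizableSpace A t := by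
  intro hm
  let m : MetricSpace A := @TopologicalSpace.metrizableSpaceMetric A t hm
  let f : A → ℝ := fun x => @dist A m.toDist x o
  have hf : @Continuous A ℝ t _ f := by
    let := m
    exact continuous_id.dist continuous_const
  have hf' : @Continuous A ℝ instTopologicalSpaceA _ f := continuous_le_dom ht hf
  obtain ⟨x, hx, hfx⟩ := no_zero_function f hf' (@dist_self A m.toPseudoMetricSpace o)
  exact hx ((@dist_le_zero A m x o).1 hfx)

end Pool.Agent.W651.Sub
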