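import Mathlib
import Pool.Agent.W651.RectG

set_option autoImplicit false

open Topology

namespace Pool.Agent.W651.Rect

/-- Every point of `Z x'` shares an endpoint with a point of `Z x`. -/
def near (x x' : G) : Prop := ∀ y' ∈ Z x', ∃ y ∈ Z x, Adj y y'

theorem near_refl (x : G) : near x x := fun y hy => ⟨y, hy, Adj_refl y⟩

theorem near_locally (x0 x0' : G) : ∀ᶠ p : G × G in 𝓝 (x0, x0'), (near p.1 p.2 ↔ near x0 x0') := by
  classical
  choose U V hUo hVo hyU hzV hUV using Adj_locally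
  have hU : ∀ y ∈ Z x0, (⋂ z ∈ Z x0', U y z) ∈ 𝓝 y := fun y _ =>
    (Filter.biInter_mem (Z_finite x0')).2 (fun z _ => (hUo y z).mem_nhds (hyU y z))
  have hV : ∀ z ∈ Z x0', (⋂ y ∈ Z x0, V y z) ∈ 𝓝 z := fun z _ =>
    (Filter.biInter_mem (Z_finite x0)).2 (fun y _ => (hVo y z).mem_nhds (hzV y z))
  have h1 := (Zc x0 (fun y => ⋂ z ∈ Z x0', U y z) hU).prod_nhds
    (Zc x0' (fun z => ⋂ y ∈ Z x0, V y z) hV)
  filter_upwards [h1]
  rintro ⟨x, x'⟩ ⟨⟨ha, hb⟩, ⟨hc, hd⟩⟩
  show near x x' ↔ near x0 x0'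
  have hkey : ∀ y ∈ Z x0, ∀ z ∈ Z x0', ∀ y', y' ∈ (⋂ z ∈ Z x0', U y z) →
      ∀ z', z' ∈ (⋂ y ∈ Z x0, V y z) → (Adj y' z' ↔ Adj y z) := by
    intro y hy z hz y' hy' z' hz'
    exact hUV y z y' (Set.mem_iInter₂.1 hy' z hz) z' (Set.mem_iInter₂.1 hz' y hy)
  constructor
  · intro h z hz
    obtain ⟨z', hz'1, hz'2⟩ := hd z hz
    obtain ⟨y', hy'1, hy'2⟩ := h z' hz'1
    obtain ⟨y, hy1, hy2⟩ := ha y' hy'1
    exact ⟨y, hy1, (hkey y hy1 z hz y' hy2 z' hz'2).1 hy'2⟩
  · intro h z' hz'
    obtain ⟨z, hz1, hz2⟩ := hc z' hz'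
    obtain ⟨y, hy1, hy2⟩ := h z hz1
    obtain ⟨y', hy'1, hy'2⟩ := hb y hy1
    exact ⟨y', hy'1, (hkey y hy1 z hz1 y' hy'2 z' hz2).2 hy2⟩

/-- The element `z` is finer than `x` for the coarse filtration. -/
def Nn (x z : G) : Prop := ∃ n, H (ceq n) z ∧ ¬ H (ceq n) x

theorem Nn_locally {x0 : G} (h0 : x0 ≠ 0) (z0 : G) :
    ∀ᶠ p : G × G in 𝓝 (x0, z0), (Nn p.1 p.2 ↔ Nn x0 z0) := by
  classical
  have hex := exists_not_H h0
  let n := Nat.find hex
  have hn : ¬ H (ceq n) x0 := Nat.find_spec hex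
  have hmin : ∀ m, ¬ H (ceq m) x0 → n ≤ m := fun m hm => Nat.find_min' hex hm
  have hmono : ∀ {m k : ℕ}, m ≤ k → ∀ {x : G}, H (ceq k) x → H (ceq m) x :=
    fun h _ hx => H_mono (fun _ _ hab => ceq_mono h hab) hx
  have hchar : ∀ x : G, H (ceq n) (x + x0) → ∀ z, (Nn x z ↔ H (ceq n) z) := by
    intro x hx z
    constructor
    · rintro ⟨m, hm1, hm2⟩
      have hnm : n ≤ m := by
        by_contra hlt
        have hlt' : m ≤ n := by omega
        apply hm2
        have h1 : H (ceq m) (x + x0) := hmono hlt' hx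
        have h2 : H (ceq m) x0 := by
          by_contra hc
          exact hlt (hmin m hc)
        have := H_add h1 h2
        rwa [add_add_self] at this
      exact hmono hnm hm1
    · intro hz
      refine ⟨n, hz, fun hc => hn ?_⟩
      have := H_add hc hx
      rwa [← add_assoc, add_self', zero_add] at this
  have h1 := (coset_mem_nhds (adm_ceq n) x0).prod_nhds (coset_mem_nhds (adm_ceq n) z0)
  filter_upwards [h1]
  rintro ⟨x, z⟩ ⟨hx, hz⟩
  show Nn x z ↔ Nn x0 z0
  have hx' : H (ceq n) (x + x0) := hx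
  have hz' : H (ceq n) (z + z0) := hz
  rw [hchar x hx' z, hchar x0 (self_mem_coset _ x0) z0]
  constructor
  · intro h
    have := H_add h hz'
    rwa [← add_assoc, add_self', zero_add] at this
  · intro h
    have := H_add hz' h
    rwa [add_add_self] at this

/-- The set of increments which the difference operation switches. -/
def Cc (x z : G) : Prop := Nn x z ∧ near x (x + z)

theorem Cc_locally {x0 : G} (h0 : x0 ≠ 0) (z0 : G) :
    ∀ᶠ p : G × G in 𝓝 (x0, z0), (Cc p.1 p.2 ↔ Cc x0 z0) := by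
  have hc : Filter.Tendsto (fun p : G × G => (p.1, p.1 + p.2)) (𝓝 (x0, z0)) (𝓝 (x0, x0 + z0)) :=
    (continuous_fst.prodMk continuous_addG).continuousAt
  filter_upwards [Nn_locally h0 z0, hc.eventually (near_locally x0 (x0 + z0))] with p hp1 hp2
  unfold Cc
  rw [hp1, hp2]

open Classical in
/-- The difference operation on the Boolean group. -/
noncomputable def T (x y : G) : G := if Cc x y ∨ Cc x (y + x) then y + x else y

theorem T_T (x y : G) : T x (T x y) = y := by
  classical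
  by_cases h : Cc x y ∨ Cc x (y + x)
  · have h1 : T x y = y + x := by unfold T; rw [if_pos h]
    have h2 : Cc x (y + x) ∨ Cc x (y + x + x) := by
      rw [add_add_self]
      exact h.symm
    rw [h1]
    unfold T
    rw [if_pos h2, add_add_self]
  · have h1 : T x y = y := by unfold T; rw [if_neg h]
    rw [h1, h1]

theorem Cc_zero {x : G} (hx : x ≠ 0) : Cc x 0 := by
  obtain ⟨n, hn⟩ := exists_not_H hx
  refine ⟨⟨n, H_zero _, hn⟩, ?_⟩
  rw [add_zero]
  exact near_refl x

theorem T_self (x : G) : T x x = 0 := by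
  classical
  unfold T
  by_cases hx : x = 0
  · subst hx
    split_ifs
    · rw [add_zero]
    · rfl
  · rw [if_pos (Or.inr (by rw [add_self']; exact Cc_zero hx)), add_self']

theorem T_zero (x : G) : T x 0 = x := by
  rw [← T_self x, T_T]

theorem T_zero_left (y : G) : T 0 y = y := by
  classical
  unfold T
  rw [add_zero]
  split_ifs <;> rfl

theorem continuous_T : Continuous (fun p : G × G => T p.1 p.2) := by
  classical
  rw [continuous_iff_continuousAt]
  rintro ⟨x0, y0⟩
  by_cases h0 : x0 = 0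
  · subst h0
    intro U hU
    rw [Filter.mem_map]
    have hU' : U ∈ 𝓝 y0 := by
      have : T 0 y0 = y0 := T_zero_left y0
      rw [← this]
      exact hU
    have hadd : ContinuousAt (fun p : G × G => p.2 + p.1) (0, y0) := by
      have : Continuous (fun p : G × G => p.2 + p.1) :=
        continuous_addG.comp (continuous_snd.prodMk continuous_fst)
      exact this.continuousAt
    have h1 : ∀ᶠ p : G × G in 𝓝 (0, y0), p.2 + p.1 ∈ U := by
      apply hadd.eventually_mem
      show U ∈ 𝓝 (y0 + 0)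
      rw [add_zero]
      exact hU'
    have h2 : ∀ᶠ p : G × G in 𝓝 (0, y0), p.2 ∈ U :=
      (continuous_snd.continuousAt (x := ((0 : G), y0))).eventually_mem hU'
    filter_upwards [h1, h2]
    rintro ⟨x, y⟩ hp1 hp2
    show T x y ∈ U
    unfold T
    split_ifs
    · exact hp1
    · exact hp2
  · have hadd : Continuous (fun p : G × G => p.2 + p.1) :=
      continuous_addG.comp (continuous_snd.prodMk continuous_fst)
    have hc : Filter.Tendsto (fun p : G × G => (p.1, p.2 + p.1)) (𝓝 (x0, y0))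
        (𝓝 (x0, y0 + x0)) := (continuous_fst.prodMk hadd).continuousAt
    have hev := (Cc_locally h0 y0).and (hc.eventually (Cc_locally h0 (y0 + x0)))
    by_cases h : Cc x0 y0 ∨ Cc x0 (y0 + x0)
    · have heq : (fun p : G × G => T p.1 p.2) =ᶠ[𝓝 (x0, y0)] (fun p => p.2 + p.1) := by
        filter_upwards [hev]
        rintro ⟨x, y⟩ ⟨hp1, hp2⟩
        show T x y = y + x
        have hp1' : Cc x y ↔ Cc x0 y0 := hp1
        have hp2' : Cc x (y + x) ↔ Cc x0 (y0 + x0) := hp2
        unfold T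
        rw [if_pos]
        rw [hp1', hp2']
        exact h
      exact ContinuousAt.congr hadd.continuousAt heq.symm
    · have heq : (fun p : G × G => T p.1 p.2) =ᶠ[𝓝 (x0, y0)] (fun p => p.2) := by
        filter_upwards [hev]
        rintro ⟨x, y⟩ ⟨hp1, hp2⟩
        show T x y = y
        have hp1' : Cc x y ↔ Cc x0 y0 := hp1
        have hp2' : Cc x (y + x) ↔ Cc x0 (y0 + x0) := hp2
        unfold T
        rw [if_neg]
        rw [hp1', hp2']
        exact h
      exact ContinuousAt.congr continuous_snd.continuousAt heq.symm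

/-- The decreasing sequence of neighbourhoods of zero. -/
def W (j : ℕ) : Set G := {x | ∀ y ∈ Z x, j < lv y}

theorem W_mono {i j : ℕ} (h : i ≤ j) : W j ⊆ W i := fun _ hx y hy => lt_of_le_of_lt h (hx y hy)

theorem W_even {x : G} (h : H (ceq 0) x) (j : ℕ) : x ∈ W j := by
  intro y hy
  rw [Z_even h] at hy
  exact absurd hy (Set.notMem_empty y)

theorem zero_mem_W (j : ℕ) : (0 : G) ∈ W j := W_even (H_zero _) j

theorem isOpen_W (j : ℕ) : IsOpen (W j) := by
  rw [isOpen_iff_mem_nhds]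
  intro x0 hx0
  filter_upwards [Zc x0 (fun _ => {y | j < lv y}) (fun y hy => (isOpen_lv j).mem_nhds (hx0 y hy))]
    with x hx y hy
  obtain ⟨y1, -, hy2⟩ := hx.1 y hy
  exact hy2

theorem T_W {j : ℕ} {x y : G} (hx : x ∈ W (j + 1)) (hy : y ∈ W (j + 1)) : T x y ∈ W j := by
  classical
  unfold T
  by_cases h : Cc x y ∨ Cc x (y + x)
  · rw [if_pos h]
    rcases h with h | h
    · intro y' hy'
      rw [add_comm] at hy'
      obtain ⟨y1, hy1, hadj⟩ := h.2 y' hy'
      exact Adj_lv hadj (hx y1 hy1)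
    · obtain ⟨n, hn, -⟩ := h.1
      exact W_even (H_ceq_zero hn) j
  · rw [if_neg h]
    exact W_mono (Nat.le_succ j) hy

end Pool.Agent.W651.Rect
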