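import Mathlib
import Pool.Agent.W651.RectT

set_option autoImplicit false

open Topology

namespace Pool.Agent.W651.Rect

/-- Finitely supported sequences in the Boolean group. -/
def A : Type := ℕ →₀ G

/-- The coordinates of an element. -/
noncomputable def co (x : A) (i : ℕ) : G := (show ℕ →₀ G from x) i

theorem A_ext {x y : A} (h : ∀ i, co x i = co y i) : x = y := Finsupp.ext h

/-- Boxes. -/
def box (O : ℕ → Set G) : Set A := {x | ∀ i, co x i ∈ O i}

/-- Admissible sequences of sides. -/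
def good (O : ℕ → Set G) : Prop := (∀ i, IsOpen (O i)) ∧ ∃ n, ∀ i, n ≤ i → W n ⊆ O i

theorem good_inter {O P : ℕ → Set G} (hO : good O) (hP : good P) : good (fun i => O i ∩ P i) := by
  obtain ⟨hO1, n, hn⟩ := hO
  obtain ⟨hP1, m, hm⟩ := hP
  refine ⟨fun i => (hO1 i).inter (hP1 i), max n m, fun i hi => ?_⟩
  exact Set.subset_inter ((W_mono (le_max_left n m)).trans (hn i (le_trans (le_max_left _ _) hi)))
    ((W_mono (le_max_right n m)).trans (hm i (le_trans (le_max_right _ _) hi)))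

instance : TopologicalSpace A where
  IsOpen U := ∀ x, x ∈ U → ∃ O, good O ∧ x ∈ box O ∧ box O ⊆ U
  isOpen_univ := fun _ _ => ⟨fun _ => Set.univ, ⟨fun _ => isOpen_univ, 0, fun _ _ =>
    Set.subset_univ _⟩, fun _ => Set.mem_univ _, Set.subset_univ _⟩
  isOpen_inter := by
    intro U V hU hV x hx
    obtain ⟨O, hO, hxO, hOU⟩ := hU x hx.1
    obtain ⟨P, hP, hxP, hPV⟩ := hV x hx.2
    exact ⟨_, good_inter hO hP, fun i => ⟨hxO i, hxP i⟩, fun y hy =>
      ⟨hOU (fun i => (hy i).1), hPV (fun i => (hy i).2)⟩⟩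
  isOpen_sUnion := by
    intro S hS x hx
    obtain ⟨U, hU, hxU⟩ := hx
    obtain ⟨O, hO, hxO, hOU⟩ := hS U hU x hxU
    exact ⟨O, hO, hxO, hOU.trans (Set.subset_sUnion_of_mem hU)⟩

theorem isOpen_A {U : Set A} : IsOpen U ↔ ∀ x, x ∈ U → ∃ O, good O ∧ x ∈ box O ∧ box O ⊆ U :=
  Iff.rfl

theorem isOpen_box {O : ℕ → Set G} (hO : good O) : IsOpen (box O) := fun _ hx =>
  ⟨O, hO, hx, subset_rfl⟩

theorem mem_nhds_A {x : A} {U : Set A} : U ∈ 𝓝 x ↔ ∃ O, good O ∧ x ∈ box O ∧ box O ⊆ U := by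
  constructor
  · intro h
    obtain ⟨V, hVU, hV, hxV⟩ := mem_nhds_iff.1 h
    obtain ⟨O, h1, h2, h3⟩ := hV x hxV
    exact ⟨O, h1, h2, h3.trans hVU⟩
  · rintro ⟨O, h1, h2, h3⟩
    exact Filter.mem_of_superset ((isOpen_box h1).mem_nhds h2) h3

theorem exists_bound (x : A) : ∃ k, ∀ i, k ≤ i → co x i = 0 := by
  classical
  refine ⟨(Finsupp.support (show ℕ →₀ G from x)).sup id + 1, fun i hi => ?_⟩
  by_contra h
  have h1 : i ∈ Finsupp.support (show ℕ →₀ G from x) := Finsupp.mem_support_iff.2 h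
  have h2 : i ≤ (Finsupp.support (show ℕ →₀ G from x)).sup id := Finset.le_sup (f := id) h1
  omega

open Classical in
/-- The sequence with one prescribed side. -/
noncomputable def one (i : ℕ) (S : Set G) (j : ℕ) : Set G := if j = i then S else Set.univ

theorem one_same (i : ℕ) (S : Set G) : one i S i = S := if_pos rfl

theorem one_ne {i j : ℕ} (S : Set G) (h : j ≠ i) : one i S j = Set.univ := if_neg h

theorem good_one (i : ℕ) {S : Set G} (hS : IsOpen S) : good (one i S) := by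
  refine ⟨fun j => ?_, i + 1, fun j hj => ?_⟩
  · by_cases hj : j = i
    · rw [hj, one_same]
      exact hS
    · rw [one_ne S hj]
      exact isOpen_univ
  · rw [one_ne S (by omega)]
    exact Set.subset_univ _

instance : T1Space A := by
  classical
  rw [t1Space_iff_exists_open]
  intro x y hxy
  have hex : ∃ i, co x i ≠ co y i := by
    by_contra h
    push Not at h
    exact hxy (A_ext h)
  obtain ⟨i, hi⟩ := hex
  refine ⟨box (one i {co y i}ᶜ), isOpen_box (good_one i isOpen_compl_singleton),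
    fun j => ?_, fun h => ?_⟩
  · by_cases hj : j = i
    · rw [hj, one_same]
      exact hi
    · rw [one_ne _ hj]
      exact Set.mem_univ _
  · have h2 := h i
    rw [one_same] at h2
    exact h2 rfl

open Classical in
/-- Cutting a sequence of sides off at `k`. -/
noncomputable def cut (k n : ℕ) (P : ℕ → Set G) (i : ℕ) : Set G := if i < k then P i else W n

theorem cut_lt {k n : ℕ} {P : ℕ → Set G} {i : ℕ} (h : i < k) : cut k n P i = P i := if_pos h

theorem cut_ge {k n : ℕ} {P : ℕ → Set G} {i : ℕ} (h : ¬ i < k) : cut k n P i = W n := if_neg h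

theorem good_cut {k n : ℕ} (hkn : n ≤ k) {P : ℕ → Set G} (hP : ∀ i, IsOpen (P i)) :
    good (cut k n P) := by
  refine ⟨fun i => ?_, k, fun i hi => ?_⟩
  · by_cases h : i < k
    · rw [cut_lt h]; exact hP i
    · rw [cut_ge h]; exact isOpen_W _
  · rw [cut_ge (not_lt.2 hi)]
    exact W_mono hkn

theorem mem_cut {k n : ℕ} {P : ℕ → Set G} {x : A} (hx : ∀ i, co x i ∈ P i)
    (hk : ∀ i, k ≤ i → co x i = 0) : x ∈ box (cut k n P) := by
  intro i
  by_cases h : i < k
  · rw [cut_lt h]; exact hx i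
  · rw [cut_ge h, hk i (not_lt.1 h)]
    exact zero_mem_W _

/-- The difference operation, coordinatewise. -/
noncomputable def D (x y : A) : A :=
  (Finsupp.zipWith T (T_zero 0) (show ℕ →₀ G from x) (show ℕ →₀ G from y) : ℕ →₀ G)

theorem co_D (x y : A) (i : ℕ) : co (D x y) i = T (co x i) (co y i) := rfl

/-- The origin. -/
noncomputable def o : A := (0 : ℕ →₀ G)

theorem co_o (i : ℕ) : co o i = 0 := rfl

theorem D_D (x y : A) : D x (D x y) = y := A_ext fun i => by
  rw [co_D, co_D, T_T]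

theorem D_self (x : A) : D x x = o := A_ext fun i => by
  rw [co_D, T_self, co_o]

theorem D_o (x : A) : D x o = x := A_ext fun i => by
  rw [co_D, co_o, T_zero]

theorem continuous_D : Continuous (fun p : A × A => D p.1 p.2) := by
  classical
  rw [continuous_iff_continuousAt]
  rintro ⟨x0, y0⟩ U hU
  rw [Filter.mem_map]
  obtain ⟨O, ⟨hO1, n, hn⟩, hO2, hO3⟩ := mem_nhds_A.1 hU
  obtain ⟨kx, hkx⟩ := exists_bound x0
  obtain ⟨ky, hky⟩ := exists_bound y0
  have hloc : ∀ i, ∃ P Q : Set G, IsOpen P ∧ IsOpen Q ∧ co x0 i ∈ P ∧ co y0 i ∈ Q ∧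
      ∀ a ∈ P, ∀ b ∈ Q, T a b ∈ O i := by
    intro i
    have h1 : (fun p : G × G => T p.1 p.2) ⁻¹' (O i) ∈ 𝓝 (co x0 i, co y0 i) :=
      (continuous_T.continuousAt).preimage_mem_nhds ((hO1 i).mem_nhds (hO2 i))
    obtain ⟨P, Q, hP, hxP, hQ, hyQ, hPQ⟩ := mem_nhds_prod_iff'.1 h1
    exact ⟨P, Q, hP, hQ, hxP, hyQ, fun a ha b hb => hPQ (Set.mk_mem_prod ha hb)⟩
  choose P Q hP hQ hxP hyQ hPQ using hloc
  let k := max (max kx ky) (n + 1)
  have hk1 : kx ≤ k := le_trans (le_max_left _ _) (le_max_left _ _)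
  have hk2 : ky ≤ k := le_trans (le_max_right _ _) (le_max_left _ _)
  have hk3 : n + 1 ≤ k := le_max_right _ _
  have gP : good (cut k (n + 1) P) := good_cut hk3 hP
  have gQ : good (cut k (n + 1) Q) := good_cut hk3 hQ
  have hx0 : x0 ∈ box (cut k (n + 1) P) := mem_cut hxP (fun i hi => hkx i (hk1.trans hi))
  have hy0 : y0 ∈ box (cut k (n + 1) Q) := mem_cut hyQ (fun i hi => hky i (hk2.trans hi))
  refine Filter.mem_of_superset (prod_mem_nhds ((isOpen_box gP).mem_nhds hx0)
    ((isOpen_box gQ).mem_nhds hy0)) ?_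
  rintro ⟨x, y⟩ ⟨hx, hy⟩
  apply hO3
  intro i
  show co (D x y) i ∈ O i
  rw [co_D]
  have hxi : co x i ∈ cut k (n + 1) P i := hx i
  have hyi : co y i ∈ cut k (n + 1) Q i := hy i
  by_cases h : i < k
  · rw [cut_lt h] at hxi hyi
    exact hPQ i _ hxi _ hyi
  · rw [cut_ge h] at hxi hyi
    exact hn i (by omega) (T_W hxi hyi)

theorem continuous_pair : Continuous (fun p : A × A => (p.1, D p.1 p.2)) :=
  continuous_fst.prodMk continuous_D

theorem pair_pair (p : A × A) : (p.1, D p.1 (D p.1 p.2)) = p := by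
  rw [D_D]

/-- The rectification. -/
noncomputable def phi : (A × A) ≃ₜ (A × A) where
  toFun p := (p.1, D p.1 p.2)
  invFun p := (p.1, D p.1 p.2)
  left_inv := pair_pair
  right_inv := pair_pair
  continuous_toFun := continuous_pair
  continuous_invFun := continuous_pair

theorem phi_apply (p : A × A) : phi p = (p.1, D p.1 p.2) := rfl

theorem tendsto_D (x y : A) : Filter.Tendsto (fun p : A × A => D p.1 p.2) (𝓝 (x, y)) (𝓝 (D x y)) :=
  continuous_D.continuousAt

theorem exists_prod_nhd (x y : A) {N : Set A} (hN : N ∈ 𝓝 (D x y)) :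
    ∃ U V : Set A, IsOpen U ∧ x ∈ U ∧ IsOpen V ∧ y ∈ V ∧ ∀ a ∈ U, ∀ b ∈ V, D a b ∈ N := by
  obtain ⟨U, V, hU, hxU, hV, hyV, hUV⟩ := mem_nhds_prod_iff'.1 (tendsto_D x y hN)
  exact ⟨U, V, hU, hxU, hV, hyV, fun a ha b hb => hUV (Set.mk_mem_prod ha hb)⟩

theorem closure_aux (x : A) (N : Set A) (hN : N ∈ 𝓝 x) : ∃ t ∈ 𝓝 x, IsClosed t ∧ t ⊆ N := by
  obtain ⟨U, V, hU, hxU, hV, hoV, hUV⟩ := exists_prod_nhd x o (by rw [D_o]; exact hN)
  refine ⟨closure U, Filter.mem_of_superset (hU.mem_nhds hxU) subset_closure, isClosed_closure, ?_⟩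
  intro z hz
  obtain ⟨P, Q, hP, hzP, hQ, hzQ, hPQ⟩ := exists_prod_nhd z z (N := V)
    (by rw [D_self]; exact hV.mem_nhds hoV)
  obtain ⟨u, hu1, hu2⟩ := mem_closure_iff_nhds.1 hz _ (hP.mem_nhds hzP)
  have h2 : D u (D u z) ∈ N := hUV u hu2 _ (hPQ u hu1 z hzQ)
  rwa [D_D] at h2

instance : RegularSpace A := RegularSpace.of_exists_mem_nhds_isClosed_subset closure_aux

theorem t3A : T3Space A := inferInstance

/-- The embedding of `Y` into the coordinate of index `n`. -/
noncomputable def iot (n : ℕ) (y : Y) : A := (Finsupp.single n (sg y) : ℕ →₀ G)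

theorem co_iot (n : ℕ) (y : Y) (i : ℕ) : co (iot n y) i = if n = i then sg y else 0 := by
  classical
  show (Finsupp.single n (sg y) : ℕ →₀ G) i = _
  rw [Finsupp.single_apply]

theorem continuous_iot (n : ℕ) : Continuous (iot n) := by
  rw [continuous_iff_continuousAt]
  intro y0 U hU
  rw [Filter.mem_map]
  obtain ⟨O, ⟨hO1, m, hm⟩, hO2, hO3⟩ := mem_nhds_A.1 hU
  have h1 : sg ⁻¹' (O n) ∈ 𝓝 y0 := by
    apply continuous_sg.continuousAt.preimage_mem_nhds
    apply (hO1 n).mem_nhds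
    have := hO2 n
    rwa [co_iot, if_pos rfl] at this
  refine Filter.mem_of_superset h1 ?_
  intro y hy
  apply hO3
  intro i
  rw [co_iot]
  have h2 := hO2 i
  rw [co_iot] at h2
  by_cases h : n = i
  · rw [if_pos h]
    rw [← h]
    exact hy
  · rw [if_neg h] at h2 ⊢
    exact h2

theorem not_T35 : ¬ T35Space A := by
  intro hA
  have hbox0 : good (fun _ => W 0) := ⟨fun _ => isOpen_W 0, 0, fun _ _ => subset_rfl⟩
  have hK : IsClosed (box (fun _ => W 0))ᶜ := (isOpen_box hbox0).isClosed_compl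
  have ho : o ∉ (box (fun _ => W 0))ᶜ := by
    intro h
    exact h (fun i => by rw [co_o]; exact zero_mem_W 0)
  obtain ⟨f, hf, hf0, hf1⟩ := CompletelyRegularSpace.completely_regular o _ hK ho
  let g : A → ℝ := fun x => (f x : ℝ)
  have hg : Continuous g := continuous_subtype_val.comp hf
  have hg0 : g o = 0 := by show ((f o : unitInterval) : ℝ) = 0; rw [hf0]; rfl
  have hg1 : ∀ x, x ∉ box (fun _ => W 0) → g x = 1 := by
    intro x hx
    show ((f x : unitInterval) : ℝ) = 1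
    rw [hf1 hx]
    rfl
  have hopen : IsOpen {x | g x < 1 / 2} := isOpen_lt hg continuous_const
  obtain ⟨O, ⟨hO1, n, hn⟩, hO2, hO3⟩ := hopen o (by show g o < 1 / 2; rw [hg0]; norm_num)
  obtain ⟨v, -, hv1, hv2⟩ := linking (fun y => g (iot n y)) (hg.comp (continuous_iot n)) (by
    intro y hy
    apply hg1
    intro h
    have h1 := h n
    rw [co_iot, if_pos rfl] at h1
    have h2 : 0 < lv y := h1 y (by rw [Z_sg]; rfl)
    omega) (n + 1) (1 / 2) (by norm_num) (fun _ => 0) 0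
  have hmem : iot n (vtx v) ∈ box O := by
    intro i
    rw [co_iot]
    by_cases h : n = i
    · rw [if_pos h, ← h]
      apply hn n le_rfl
      intro y hy
      rw [Z_sg, Set.mem_singleton_iff] at hy
      subst hy
      show n < lam v
      omega
    · rw [if_neg h]
      have := hO2 i
      rwa [co_o] at this
  have h3 : g (iot n (vtx v)) < 1 / 2 := hO3 hmem
  exact lt_asymm h3 hv2

end Pool.Agent.W651.Rect
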